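import Mathlib

/-!
# 2-weight colourability: definitions
-/

set_option autoImplicit false

namespace Pool.Agent.WC2

open Classical in
/-- The vertex sum `σ_w(v)`: the sum of the weights of the edges at `v`. The edge joining `v` and
`u` is `s(v, u)`. -/
noncomputable def vsum {V : Type} [Fintype V] (G : SimpleGraph V) (w : Sym2 V → ℝ) (v : V) : ℝ :=
  ∑ u ∈ G.neighborFinset v, w s(v, u)

/-- `G` is `S`-weight colourable: there is an assignment of weights in `S` to the edges such that
adjacent vertices have different vertex sums. (The values of `w` outside the edge set are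
irrelevant.) -/
def SColourable {V : Type} [Fintype V] (G : SimpleGraph V) (S : Set ℝ) : Prop :=
  ∃ w : Sym2 V → ℝ, (∀ e ∈ G.edgeSet, w e ∈ S) ∧ ∀ u v, G.Adj u v → vsum G w u ≠ vsum G w v

/-- `G` is `k`-weight colourable: `S`-weight colourable for every set `S` of `k` real numbers. -/
def KWC (k : ℕ) {V : Type} [Fintype V] (G : SimpleGraph V) : Prop :=
  ∀ S : Set ℝ, S.ncard = k → SColourable G S

open Classical in
/-- The adjacency matrix of a graph on `{0, …, n-1}` as a word of length `n²`: letter number
`i * n + j` tells whether `i` and `j` are adjacent. -/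
noncomputable def adjBits {n : ℕ} (G : SimpleGraph (Fin n)) : List Bool :=
  (List.range (n * n)).map fun m =>
    decide (∃ (hi : m / n < n) (hj : m % n < n), G.Adj ⟨m / n, hi⟩ ⟨m % n, hj⟩)

/-- The decision problem 2-WC: the adjacency matrices of the 2-weight colourable graphs. -/
def TwoWC : Set (List Bool) :=
  {y | ∃ (n : ℕ) (G : SimpleGraph (Fin n)), y = adjBits G ∧ KWC 2 G}

end Pool.Agent.WC2
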