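import Mathlib
import Pool.Agent.WC2.Defs

/-!
# Graphs given by neighbour lists, pendant paths and shifts
-/

set_option autoImplicit false

namespace Pool.Agent.WC2

open Finset

/-- Graphs given by finite sets of neighbours. -/
structure LG (V : Type) where
  nb : V → Finset V
  symm : ∀ {a b : V}, b ∈ nb a → a ∈ nb b

variable {V : Type}

/-- Colourability of a graph given by neighbour lists. -/
def LG.SC (G : LG V) (S : Set ℝ) : Prop :=
  ∃ w : V → V → ℝ, (∀ a b, w a b = w b a) ∧ (∀ a, ∀ b ∈ G.nb a, w a b ∈ S) ∧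
    ∀ a, ∀ b ∈ G.nb a, ∑ x ∈ G.nb a, w a x ≠ ∑ x ∈ G.nb b, w b x

/-- The problem with weights in `{0, 1}` and shifts `k`. -/
def LG.Shift (G : LG V) (k : V → ℕ) : Prop :=
  ∃ w : V → V → ℕ, (∀ a b, w a b = w b a) ∧ (∀ a, ∀ b ∈ G.nb a, w a b ≤ 1) ∧
    ∀ a, ∀ b ∈ G.nb a, k a + ∑ x ∈ G.nb a, w a x ≠ k b + ∑ x ∈ G.nb b, w b x

/-- Vertices of the graph with pendant paths. -/
inductive PV (V : Type) : Type
  | base (a : V) : PV V
  | pp (a : V) (j : ℕ) : PV V
  | qq (a : V) (j : ℕ) : PV V

/-- The embedding of the base vertices. -/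
def PV.baseE : V ↪ PV V := ⟨PV.base, fun a b h => by injection h⟩

/-- The embedding of the middle vertices of the pendant paths at `a`. -/
def PV.ppE (a : V) : ℕ ↪ PV V := ⟨PV.pp a, fun i j h => by injection h⟩

open Classical in
/-- Attaching `k a` pendant paths with two edges to each vertex `a`. -/
noncomputable def LG.pend (G : LG V) (k : V → ℕ) : LG (PV V) where
  nb := fun
    | .base a => (G.nb a).map PV.baseE ∪ (range (k a)).map (PV.ppE a)
    | .pp a j => if j < k a then {PV.base a, PV.qq a j} else ∅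
    | .qq a j => if j < k a then {PV.pp a j} else ∅
  symm := by
    rintro (a | ⟨a, i⟩ | ⟨a, i⟩) (b | ⟨b, j⟩ | ⟨b, j⟩) h
    · simp only [mem_union, mem_map, PV.baseE, PV.ppE, Function.Embedding.coeFn_mk,
        PV.base.injEq, exists_eq_right, reduceCtorEq, and_false, exists_false, or_false] at h ⊢
      exact G.symm h
    · simp only [mem_union, mem_map, PV.baseE, PV.ppE, Function.Embedding.coeFn_mk,
        reduceCtorEq, and_false, exists_false, false_or, mem_range, PV.pp.injEq] at h
      obtain ⟨i, hi, rfl, rfl⟩ := h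
      simp [hi]
    · simp [PV.baseE, PV.ppE] at h
    · by_cases hi : i < k a
      · simp only [hi, if_true, mem_insert, mem_singleton, PV.base.injEq, reduceCtorEq,
          or_false] at h
        subst h
        simp [PV.ppE, hi]
      · simp [hi] at h
    · by_cases hi : i < k a
      · simp [hi] at h
      · simp [hi] at h
    · by_cases hi : i < k a
      · simp only [hi, if_true, mem_insert, mem_singleton, reduceCtorEq, PV.qq.injEq,
          false_or] at h
        obtain ⟨rfl, rfl⟩ := h
        simp [hi]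
      · simp [hi] at h
    · by_cases hi : i < k a
      · simp [hi] at h
      · simp [hi] at h
    · by_cases hi : i < k a
      · simp only [hi, if_true, mem_singleton, PV.pp.injEq] at h
        obtain ⟨rfl, rfl⟩ := h
        simp [hi]
      · simp [hi] at h
    · by_cases hi : i < k a
      · simp [hi] at h
      · simp [hi] at h

theorem LG.sum_base (G : LG V) (k : V → ℕ) (w : PV V → ℝ) (a : V) :
    ∑ x ∈ (G.pend k).nb (PV.base a), w x =
      ∑ b ∈ G.nb a, w (PV.base b) + ∑ j ∈ range (k a), w (PV.pp a j) := by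
  classical
  have hd : Disjoint ((G.nb a).map PV.baseE) ((range (k a)).map (PV.ppE a)) := by
    rw [Finset.disjoint_left]
    intro x hx hx'
    rw [mem_map] at hx hx'
    obtain ⟨b, _, rfl⟩ := hx
    obtain ⟨j, _, h⟩ := hx'
    simp [PV.baseE, PV.ppE] at h
  have e : (G.pend k).nb (PV.base a) = (G.nb a).map PV.baseE ∪ (range (k a)).map (PV.ppE a) := by
    simp only [LG.pend]
  rw [e, sum_union hd, sum_map, sum_map]
  rfl

theorem LG.sum_pp (G : LG V) (k : V → ℕ) (w : PV V → ℝ) (a : V) (j : ℕ) (hj : j < k a) :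
    ∑ x ∈ (G.pend k).nb (PV.pp a j), w x = w (PV.base a) + w (PV.qq a j) := by
  classical
  have e : (G.pend k).nb (PV.pp a j) = {PV.base a, PV.qq a j} := by
    simp only [LG.pend, hj, if_true]
  rw [e, sum_pair (by simp)]

theorem LG.sum_qq (G : LG V) (k : V → ℕ) (w : PV V → ℝ) (a : V) (j : ℕ) (hj : j < k a) :
    ∑ x ∈ (G.pend k).nb (PV.qq a j), w x = w (PV.pp a j) := by
  classical
  have e : (G.pend k).nb (PV.qq a j) = {PV.pp a j} := by
    simp only [LG.pend, hj, if_true]
  rw [e, sum_singleton]

theorem LG.mem_base (G : LG V) (k : V → ℕ) (a b : V) :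
    PV.base b ∈ (G.pend k).nb (PV.base a) ↔ b ∈ G.nb a := by
  simp [LG.pend, PV.baseE, PV.ppE]

theorem LG.mem_pp (G : LG V) (k : V → ℕ) (a b : V) (j : ℕ) :
    PV.pp b j ∈ (G.pend k).nb (PV.base a) ↔ b = a ∧ j < k a := by
  simp only [LG.pend, PV.baseE, PV.ppE, mem_union, mem_map, Function.Embedding.coeFn_mk,
    reduceCtorEq, and_false, exists_false, false_or, mem_range, PV.pp.injEq]
  constructor
  · rintro ⟨i, hi, rfl, rfl⟩
    exact ⟨rfl, hi⟩
  · rintro ⟨rfl, h⟩
    exact ⟨j, h, rfl, rfl⟩

theorem LG.mem_qq (G : LG V) (k : V → ℕ) (a b : V) (i j : ℕ) :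
    PV.qq b j ∈ (G.pend k).nb (PV.pp a i) ↔ b = a ∧ j = i ∧ i < k a := by
  by_cases hi : i < k a
  · simp [LG.pend, hi]
  · simp [LG.pend, hi]

/-- The conditions for a weighting of the graph with pendant paths, in terms of the weights of the
three kinds of edges. -/
theorem LG.pend_SC (G : LG V) (k : V → ℕ) (S : Set ℝ) :
    (G.pend k).SC S ↔ ∃ (w : V → V → ℝ) (p q : V → ℕ → ℝ), (∀ a b, w a b = w b a) ∧
      (∀ a, ∀ b ∈ G.nb a, w a b ∈ S) ∧ (∀ a, ∀ j < k a, p a j ∈ S) ∧
      (∀ a, ∀ j < k a, q a j ∈ S) ∧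
      (∀ a, ∀ b ∈ G.nb a, ∑ x ∈ G.nb a, w a x + ∑ j ∈ range (k a), p a j ≠
        ∑ x ∈ G.nb b, w b x + ∑ j ∈ range (k b), p b j) ∧
      (∀ a, ∀ j < k a, ∑ x ∈ G.nb a, w a x + ∑ j ∈ range (k a), p a j ≠ p a j + q a j) ∧
      (∀ a, ∀ j < k a, p a j ≠ 0) := by
  classical
  constructor
  · rintro ⟨w, hsym, hS, hne⟩
    refine ⟨fun a b => w (PV.base a) (PV.base b), fun a j => w (PV.base a) (PV.pp a j),
      fun a j => w (PV.pp a j) (PV.qq a j), fun a b => hsym _ _, ?_, ?_, ?_, ?_, ?_, ?_⟩
    · intro a b hb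
      exact hS _ _ ((G.mem_base k a b).2 hb)
    · intro a j hj
      exact hS _ _ ((G.mem_pp k a a j).2 ⟨rfl, hj⟩)
    · intro a j hj
      exact hS _ _ ((G.mem_qq k a a j j).2 ⟨rfl, rfl, hj⟩)
    · intro a b hb
      have h := hne _ _ ((G.mem_base k a b).2 hb)
      rwa [G.sum_base k (w (PV.base a)), G.sum_base k (w (PV.base b))] at h
    · intro a j hj
      have h := hne _ _ ((G.mem_pp k a a j).2 ⟨rfl, hj⟩)
      rw [G.sum_base k (w (PV.base a)), G.sum_pp k (w (PV.pp a j)) a j hj] at h
      rwa [hsym (PV.pp a j) (PV.base a)] at h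
    · intro a j hj
      have h := hne _ _ ((G.mem_qq k a a j j).2 ⟨rfl, rfl, hj⟩)
      rw [G.sum_pp k (w (PV.pp a j)) a j hj, G.sum_qq k (w (PV.qq a j)) a j hj,
        hsym (PV.qq a j) (PV.pp a j), hsym (PV.pp a j) (PV.base a)] at h
      intro h0
      dsimp only at h0
      apply h
      rw [h0, zero_add]
  · rintro ⟨w, p, q, hsym, hS, hp, hq, h1, h2, h3⟩
    let W : PV V → PV V → ℝ := fun x y =>
      match x, y with
      | .base a, .base b => w a b
      | .base _, .pp b j => p b j
      | .pp a j, .base _ => p a j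
      | .pp a j, .qq _ _ => q a j
      | .qq _ _, .pp b j => q b j
      | _, _ => 0
    refine ⟨W, ?_, ?_, ?_⟩
    · rintro (a | ⟨a, i⟩ | ⟨a, i⟩) (b | ⟨b, j⟩ | ⟨b, j⟩) <;> simp only [W]
      exact hsym a b
    · rintro (a | ⟨a, i⟩ | ⟨a, i⟩) (b | ⟨b, j⟩ | ⟨b, j⟩) h
      · exact hS a b ((G.mem_base k a b).1 h)
      · obtain ⟨rfl, hj⟩ := (G.mem_pp k a b j).1 h
        exact hp _ _ hj
      · simp [LG.pend, PV.baseE, PV.ppE] at h
      · obtain ⟨rfl, hj⟩ := (G.mem_pp k b a i).1 ((G.pend k).symm h)
        exact hp _ _ hj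
      · by_cases hi : i < k a <;> simp [LG.pend, hi] at h
      · obtain ⟨rfl, rfl, hj⟩ := (G.mem_qq k a b i j).1 h
        exact hq _ _ hj
      · by_cases hi : i < k a <;> simp [LG.pend, hi] at h
      · obtain ⟨rfl, rfl, hj⟩ := (G.mem_qq k b a j i).1 ((G.pend k).symm h)
        exact hq _ _ hj
      · by_cases hi : i < k a <;> simp [LG.pend, hi] at h
    · -- it is enough to look at one orientation
      have key : ∀ a, ∑ x ∈ (G.pend k).nb (PV.base a), W (PV.base a) x =
          ∑ x ∈ G.nb a, w a x + ∑ j ∈ range (k a), p a j := fun a => G.sum_base k _ a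
      have keyp : ∀ a j, j < k a → ∑ x ∈ (G.pend k).nb (PV.pp a j), W (PV.pp a j) x =
          p a j + q a j := fun a j hj => G.sum_pp k _ a j hj
      have keyq : ∀ a j, j < k a → ∑ x ∈ (G.pend k).nb (PV.qq a j), W (PV.qq a j) x =
          q a j := fun a j hj => G.sum_qq k _ a j hj
      rintro (a | ⟨a, i⟩ | ⟨a, i⟩) (b | ⟨b, j⟩ | ⟨b, j⟩) h
      · rw [key, key]
        exact h1 a b ((G.mem_base k a b).1 h)
      · obtain ⟨rfl, hj⟩ := (G.mem_pp k a b j).1 h
        rw [key, keyp _ _ hj]
        exact h2 _ _ hj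
      · simp [LG.pend, PV.baseE, PV.ppE] at h
      · obtain ⟨rfl, hj⟩ := (G.mem_pp k b a i).1 ((G.pend k).symm h)
        rw [key, keyp _ _ hj]
        exact (h2 _ _ hj).symm
      · by_cases hi : i < k a <;> simp [LG.pend, hi] at h
      · obtain ⟨rfl, rfl, hj⟩ := (G.mem_qq k a b i j).1 h
        rw [keyp _ _ hj, keyq _ _ hj]
        intro h0
        exact h3 _ _ hj (by linarith)
      · by_cases hi : i < k a <;> simp [LG.pend, hi] at h
      · obtain ⟨rfl, rfl, hj⟩ := (G.mem_qq k b a j i).1 ((G.pend k).symm h)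
        rw [keyp _ _ hj, keyq _ _ hj]
        intro h0
        exact h3 _ _ hj (by linarith)
      · by_cases hi : i < k a <;> simp [LG.pend, hi] at h

/-- With weights `0` and `c ≠ 0` the pendant paths act as a shift. -/
theorem LG.pend_zero (G : LG V) (k : V → ℕ) (c : ℝ) (hc : c ≠ 0) :
    (G.pend k).SC {0, c} ↔ G.Shift k := by
  classical
  rw [G.pend_SC]
  constructor
  · rintro ⟨w, p, q, hsym, hS, hp, hq, h1, h2, h3⟩
    have hpc : ∀ a, ∀ j < k a, p a j = c := by
      intro a j hj
      rcases hp a j hj with h | h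
      · exact absurd h (h3 a j hj)
      · exact h
    have hps : ∀ a, ∑ j ∈ range (k a), p a j = k a * c := by
      intro a
      rw [sum_congr rfl fun j hj => hpc a j (mem_range.1 hj)]
      simp
    set W : V → V → ℕ := fun a b => if w a b = c then 1 else 0 with hW
    have hw : ∀ a, ∀ b ∈ G.nb a, w a b = W a b * c := by
      intro a b hb
      rcases hS a b hb with h | h
      · have : w a b ≠ c := by rw [h]; exact hc.symm
        simp only [hW, this, if_false]
        simpa using h
      · have : w a b = c := h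
        simp [hW, this]
    have hws : ∀ a, ∑ x ∈ G.nb a, w a x = (∑ x ∈ G.nb a, W a x : ℕ) * c := by
      intro a
      rw [sum_congr rfl (hw a), ← sum_mul]
      push_cast
      rfl
    refine ⟨W, fun a b => by simp only [hW, hsym a b], fun a b _ => by
      simp only [hW]; split_ifs <;> omega, fun a b hb h => ?_⟩
    apply h1 a b hb
    rw [hws, hws, hps, hps, ← add_mul, ← add_mul]
    congr 1
    have := congrArg (fun n : ℕ => (n : ℝ)) h
    push_cast at this ⊢
    linarith
  · rintro ⟨W, hsym, hW1, hne⟩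
    set T : V → ℝ := fun a => ∑ x ∈ G.nb a, (W a x : ℝ) * c + ∑ j ∈ range (k a), c with hT
    refine ⟨fun a b => W a b * c, fun _ _ => c, fun a _ => if T a = c + 0 then c else 0,
      fun a b => by dsimp only; rw [hsym a b], ?_, ?_, ?_, ?_, ?_, ?_⟩
    · intro a b hb
      have := hW1 a b hb
      have h : W a b = 0 ∨ W a b = 1 := by omega
      rcases h with h | h <;> simp [h]
    · intro a j _; simp
    · intro a j _
      dsimp only
      split_ifs <;> simp
    · intro a b hb h
      apply hne a b hb
      rw [← sum_mul, ← sum_mul, sum_const, sum_const, card_range, card_range, nsmul_eq_mul,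
        nsmul_eq_mul, ← add_mul, ← add_mul] at h
      have h' := mul_right_cancel₀ hc h
      have h'' : ((k a + ∑ x ∈ G.nb a, W a x : ℕ) : ℝ) = ((k b + ∑ x ∈ G.nb b, W b x : ℕ) : ℝ) := by
        push_cast
        linarith
      exact_mod_cast h''
    · intro a j _
      change T a ≠ c + (if T a = c + 0 then c else 0)
      split_ifs with h
      · rw [h]
        intro h0
        exact hc (by linarith)
      · exact h
    · intro a j _; exact hc

/-- Greedy choice. -/
theorem LG.greedy (G : LG V) (L : V → Finset ℝ) (hL : ∀ a, (G.nb a).card < (L a).card)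
    (hirr : ∀ a, a ∉ G.nb a) (F : Finset V) :
    ∃ c : V → ℝ, (∀ a ∈ F, c a ∈ L a) ∧ ∀ a ∈ F, ∀ b ∈ F, b ∈ G.nb a → c a ≠ c b := by
  classical
  induction F using Finset.induction_on with
  | empty => exact ⟨fun _ => 0, by simp, by simp⟩
  | insert a F ha ih =>
    obtain ⟨c, h1, h2⟩ := ih
    obtain ⟨z, hz, hz'⟩ : ∃ z ∈ L a, z ∉ (G.nb a).image c := by
      by_contra hcon
      push Not at hcon
      have : L a ⊆ (G.nb a).image c := fun z hz => hcon z hz
      have h3 := (card_le_card this).trans card_image_le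
      have := hL a
      omega
    refine ⟨Function.update c a z, ?_, ?_⟩
    · intro b hb
      rcases mem_insert.1 hb with rfl | hb
      · simpa using hz
      · have : b ≠ a := fun h => ha (h ▸ hb)
        rw [Function.update_of_ne this]
        exact h1 b hb
    · intro b hb d hd hbd
      rcases mem_insert.1 hb with rfl | hb
      · rcases mem_insert.1 hd with rfl | hd
        · exact absurd hbd (hirr _)
        · have hne : d ≠ b := fun h => ha (h ▸ hd)
          rw [Function.update_self, Function.update_of_ne hne]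
          intro h
          exact hz' (mem_image.2 ⟨d, hbd, h.symm⟩)
      · have hne : b ≠ a := fun h => ha (h ▸ hb)
        rcases mem_insert.1 hd with rfl | hd
        · rw [Function.update_self, Function.update_of_ne hne]
          intro h
          exact hz' (mem_image.2 ⟨b, G.symm hbd, h⟩)
        · have hne' : d ≠ a := fun h => ha (h ▸ hd)
          rw [Function.update_of_ne hne, Function.update_of_ne hne']
          exact h2 b hb d hd hbd

/-- If every vertex has at least as many pendant paths as base neighbours, then two non-zero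
weights always suffice. -/
theorem LG.pend_nonzero (G : LG V) (k : V → ℕ) (hk : ∀ a, (G.nb a).card ≤ k a)
    (hirr : ∀ a, a ∉ G.nb a) (F : Finset V) (hF : ∀ a, (G.nb a).Nonempty → a ∈ F)
    (s t : ℝ) (hst : s ≠ t) (hs : s ≠ 0) (ht : t ≠ 0) : (G.pend k).SC {s, t} := by
  classical
  rw [G.pend_SC]
  -- the possible sums
  set val : V → ℕ → ℝ := fun a n => ∑ x ∈ G.nb a, s + (n * t + ((k a : ℝ) - n) * s) with hval
  have hinj : ∀ a, Function.Injective (val a) := by
    intro a m n h
    simp only [hval] at h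
    have h1 : ((m : ℝ) - n) * (t - s) = 0 := by linarith
    rcases mul_eq_zero.1 h1 with h2 | h2
    · have : (m : ℝ) = n := by linarith
      exact_mod_cast this
    · exact absurd (by linarith : s = t) hst
  set L : V → Finset ℝ := fun a => (range (k a + 1)).image (val a) with hL
  obtain ⟨c, hc1, hc2⟩ := G.greedy L (fun a => by
    simp only [hL]
    rw [card_image_of_injective _ (hinj a), card_range]
    have := hk a
    omega) hirr F
  have hn : ∀ a, ∃ n, n ≤ k a ∧ (a ∈ F → val a n = c a) := by
    intro a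
    by_cases ha : a ∈ F
    · obtain ⟨n, hn, hn'⟩ := mem_image.1 (hc1 a ha)
      exact ⟨n, by have := mem_range.1 hn; omega, fun _ => hn'⟩
    · exact ⟨0, Nat.zero_le _, fun h => absurd h ha⟩
  choose n hnk hnv using hn
  have hsum : ∀ a, ∑ j ∈ range (k a), (if j < n a then t else s) =
      n a * t + ((k a : ℝ) - n a) * s := by
    intro a
    have h0 := hnk a
    have hsplit : range (k a) = range (n a) ∪ (range (k a) \ range (n a)) := by
      ext j; simp only [mem_union, mem_range, mem_sdiff]; omega
    rw [Finset.sum_ite, sum_const, sum_const]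
    have e1 : ((range (k a)).filter (fun j => j < n a)).card = n a := by
      have : (range (k a)).filter (fun j => j < n a) = range (n a) := by
        ext j; simp only [mem_filter, mem_range]; omega
      rw [this, card_range]
    have e2 : ((range (k a)).filter (fun j => ¬ j < n a)).card = k a - n a := by
      have h3 := Finset.card_filter_add_card_filter_not (s := range (k a)) (fun j => j < n a)
      rw [card_range] at h3
      omega
    rw [e1, e2, nsmul_eq_mul, nsmul_eq_mul, Nat.cast_sub h0]
  set T : V → ℝ := fun a => ∑ x ∈ G.nb a, s + ∑ j ∈ range (k a), (if j < n a then t else s)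
    with hT
  have hTv : ∀ a, T a = val a (n a) := fun a => by simp only [hT, hval, hsum]
  refine ⟨fun _ _ => s, fun a j => if j < n a then t else s,
    fun a j => if T a = (if j < n a then t else s) + s then t else s, fun _ _ => rfl,
    ?_, ?_, ?_, ?_, ?_, ?_⟩
  · intro a b _; simp
  · intro a j _
    dsimp only
    split_ifs <;> simp
  · intro a j _
    dsimp only
    split_ifs <;> simp
  · intro a b hb
    change T a ≠ T b
    have ha : a ∈ F := hF a ⟨b, hb⟩
    have hb' : b ∈ F := hF b ⟨a, G.symm hb⟩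
    rw [hTv, hTv, hnv a ha, hnv b hb']
    exact hc2 a ha b hb' hb
  · intro a j _
    change T a ≠ (if j < n a then t else s) +
      (if T a = (if j < n a then t else s) + s then t else s)
    by_cases h : T a = (if j < n a then t else s) + s
    · rw [if_pos h]
      rw [h]
      intro h0
      exact hst (by linarith)
    · rw [if_neg h]
      exact h
  · intro a j _
    dsimp only
    split_ifs
    · exact ht
    · exact hs

end Pool.Agent.WC2
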