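import Mathlib
import Pool.Agent.WC2.LG

/-!
# From clauses to weightings with shifts
-/

set_option autoImplicit false

namespace Pool.Agent.WC2

open Finset

/-- Vertices of the base graph. -/
inductive GV : Type
  | u (v s : ℕ) : GV
  | p (v s : ℕ) : GV
  | q (v s : ℕ) : GV
  | r (v s : ℕ) : GV
  | t (v s : ℕ) : GV
  | z (v s : ℕ) : GV
  | x (s : ℕ) : GV
  | y (c : ℕ) : GV
  | l (c : ℕ) : GV
  deriving DecidableEq

/-- Sets of clauses: `C` clauses of three literals over the atoms below `U`; the literal `2 a` is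
the atom `a`, and `2 a + 1` its negation. -/
structure Inst where
  U : ℕ
  C : ℕ
  lit : ℕ → ℕ → ℕ
  hlit : ∀ c, c < C → ∀ j, j < 3 → lit c j / 2 < U

namespace Inst

variable (I : Inst)

/-- Number of slots. -/
def m : ℕ := 3 * I.C

/-- The atom of a slot. -/
def atm (s : ℕ) : ℕ := I.lit (s / 3) (s % 3) / 2

/-- The sign of a slot: `0` for positive, `1` for negative. -/
def sg (s : ℕ) : ℕ := I.lit (s / 3) (s % 3) % 2

/-- Cyclic successor. -/
def nx (s : ℕ) : ℕ := (s + 1) % I.m

/-- Cyclic predecessor. -/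
def pv (s : ℕ) : ℕ := (s + (I.m - 1)) % I.m

theorem atm_lt {s : ℕ} (hs : s < I.m) : I.atm s < I.U :=
  I.hlit _ (by unfold m at hs; omega) _ (Nat.mod_lt _ (by omega))

theorem nx_lt {s : ℕ} (hs : s < I.m) : I.nx s < I.m := Nat.mod_lt _ (by omega)

theorem pv_lt {s : ℕ} (hs : s < I.m) : I.pv s < I.m := Nat.mod_lt _ (by omega)

theorem nx_pv {s : ℕ} (hs : s < I.m) : I.nx (I.pv s) = s := by
  unfold nx pv
  rw [Nat.mod_add_mod]
  have : s + (I.m - 1) + 1 = s + I.m := by omega
  rw [this, Nat.add_mod_right, Nat.mod_eq_of_lt hs]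

theorem pv_nx {s : ℕ} (hs : s < I.m) : I.pv (I.nx s) = s := by
  unfold nx pv
  rw [Nat.mod_add_mod]
  have : s + 1 + (I.m - 1) = s + I.m := by omega
  rw [this, Nat.add_mod_right, Nat.mod_eq_of_lt hs]

/-- Neighbours. -/
def nb : GV → Finset GV
  | .u v s => if v < I.U ∧ s < I.m then {.p v s, .t v (I.pv s), .z v s} else ∅
  | .p v s => if v < I.U ∧ s < I.m then {.u v s, .q v s, .r v s} else ∅
  | .q v s => if v < I.U ∧ s < I.m then {.p v s, .r v s, .t v s} else ∅
  | .r v s => if v < I.U ∧ s < I.m then {.p v s, .q v s, .t v s} else ∅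
  | .t v s => if v < I.U ∧ s < I.m then {.q v s, .r v s, .u v (I.nx s)} else ∅
  | .z v s => if v < I.U ∧ s < I.m then (if I.atm s = v then {.u v s, .x s} else {.u v s}) else ∅
  | .x s => if s < I.m then {.z (I.atm s) s, .y (s / 3)} else ∅
  | .y c => if c < I.C then {.l c, .x (3 * c), .x (3 * c + 1), .x (3 * c + 2)} else ∅
  | .l c => if c < I.C then {.y c} else ∅

theorem nb_u {v s : ℕ} (hv : v < I.U) (hs : s < I.m) :
    I.nb (.u v s) = {.p v s, .t v (I.pv s), .z v s} := if_pos ⟨hv, hs⟩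
theorem nb_p {v s : ℕ} (hv : v < I.U) (hs : s < I.m) :
    I.nb (.p v s) = {.u v s, .q v s, .r v s} := if_pos ⟨hv, hs⟩
theorem nb_q {v s : ℕ} (hv : v < I.U) (hs : s < I.m) :
    I.nb (.q v s) = {.p v s, .r v s, .t v s} := if_pos ⟨hv, hs⟩
theorem nb_r {v s : ℕ} (hv : v < I.U) (hs : s < I.m) :
    I.nb (.r v s) = {.p v s, .q v s, .t v s} := if_pos ⟨hv, hs⟩
theorem nb_t {v s : ℕ} (hv : v < I.U) (hs : s < I.m) :
    I.nb (.t v s) = {.q v s, .r v s, .u v (I.nx s)} := if_pos ⟨hv, hs⟩
theorem nb_z {v s : ℕ} (hv : v < I.U) (hs : s < I.m) :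
    I.nb (.z v s) = if I.atm s = v then {.u v s, .x s} else {.u v s} := if_pos ⟨hv, hs⟩
theorem nb_x {s : ℕ} (hs : s < I.m) :
    I.nb (.x s) = {.z (I.atm s) s, .y (s / 3)} := if_pos hs
theorem nb_y {c : ℕ} (hc : c < I.C) :
    I.nb (.y c) = {.l c, .x (3 * c), .x (3 * c + 1), .x (3 * c + 2)} := if_pos hc
theorem nb_l {c : ℕ} (hc : c < I.C) : I.nb (.l c) = {.y c} := if_pos hc

/-- Edges. -/
inductive E : GV → GV → Prop
  | up (v s : ℕ) (hv : v < I.U) (hs : s < I.m) : E (.u v s) (.p v s)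
  | pq (v s : ℕ) (hv : v < I.U) (hs : s < I.m) : E (.p v s) (.q v s)
  | pr (v s : ℕ) (hv : v < I.U) (hs : s < I.m) : E (.p v s) (.r v s)
  | qr (v s : ℕ) (hv : v < I.U) (hs : s < I.m) : E (.q v s) (.r v s)
  | qt (v s : ℕ) (hv : v < I.U) (hs : s < I.m) : E (.q v s) (.t v s)
  | rt (v s : ℕ) (hv : v < I.U) (hs : s < I.m) : E (.r v s) (.t v s)
  | tu (v s : ℕ) (hv : v < I.U) (hs : s < I.m) : E (.t v s) (.u v (I.nx s))
  | uz (v s : ℕ) (hv : v < I.U) (hs : s < I.m) : E (.u v s) (.z v s)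
  | zx (s : ℕ) (hs : s < I.m) : E (.z (I.atm s) s) (.x s)
  | xy (s : ℕ) (hs : s < I.m) : E (.x s) (.y (s / 3))
  | yl (c : ℕ) (hc : c < I.C) : E (.y c) (.l c)

theorem E_nb {a b : GV} (h : I.E a b) : b ∈ I.nb a ∧ a ∈ I.nb b := by
  cases h with
  | up v s hv hs => simp [nb_u, nb_p, hv, hs]
  | pq v s hv hs => simp [nb_q, nb_p, hv, hs]
  | pr v s hv hs => simp [nb_r, nb_p, hv, hs]
  | qr v s hv hs => simp [nb_r, nb_q, hv, hs]
  | qt v s hv hs => simp [nb_t, nb_q, hv, hs]
  | rt v s hv hs => simp [nb_t, nb_r, hv, hs]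
  | tu v s hv hs => simp [nb_t, nb_u, hv, hs, I.nx_lt hs, I.pv_nx hs]
  | uz v s hv hs =>
    refine ⟨by simp [nb_u, hv, hs], ?_⟩
    rw [I.nb_z hv hs]
    split_ifs <;> simp
  | zx s hs =>
    refine ⟨?_, by simp [nb_x, hs]⟩
    rw [I.nb_z (I.atm_lt hs) hs, if_pos rfl]
    simp
  | xy s hs =>
    have hc : s / 3 < I.C := by unfold m at hs; omega
    refine ⟨by simp [nb_x, hs], ?_⟩
    rw [I.nb_y hc]
    simp only [mem_insert, reduceCtorEq, GV.x.injEq, mem_singleton, false_or]
    omega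
  | yl c hc => simp [nb_y, nb_l, hc]

theorem nb_E {a b : GV} (h : b ∈ I.nb a) : I.E a b ∨ I.E b a := by
  cases a with
  | u v s =>
    by_cases hvs : v < I.U ∧ s < I.m
    · obtain ⟨hv, hs⟩ := hvs
      rw [I.nb_u hv hs] at h
      simp only [mem_insert, mem_singleton] at h
      rcases h with rfl | rfl | rfl
      · exact Or.inl (E.up v s hv hs)
      · right
        have := E.tu (I := I) v (I.pv s) hv (I.pv_lt hs)
        rwa [I.nx_pv hs] at this
      · exact Or.inl (E.uz v s hv hs)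
    · simp [nb, hvs] at h
  | p v s =>
    by_cases hvs : v < I.U ∧ s < I.m
    · obtain ⟨hv, hs⟩ := hvs
      rw [I.nb_p hv hs] at h
      simp only [mem_insert, mem_singleton] at h
      rcases h with rfl | rfl | rfl
      · exact Or.inr (E.up v s hv hs)
      · exact Or.inl (E.pq v s hv hs)
      · exact Or.inl (E.pr v s hv hs)
    · simp [nb, hvs] at h
  | q v s =>
    by_cases hvs : v < I.U ∧ s < I.m
    · obtain ⟨hv, hs⟩ := hvs
      rw [I.nb_q hv hs] at h
      simp only [mem_insert, mem_singleton] at h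
      rcases h with rfl | rfl | rfl
      · exact Or.inr (E.pq v s hv hs)
      · exact Or.inl (E.qr v s hv hs)
      · exact Or.inl (E.qt v s hv hs)
    · simp [nb, hvs] at h
  | r v s =>
    by_cases hvs : v < I.U ∧ s < I.m
    · obtain ⟨hv, hs⟩ := hvs
      rw [I.nb_r hv hs] at h
      simp only [mem_insert, mem_singleton] at h
      rcases h with rfl | rfl | rfl
      · exact Or.inr (E.pr v s hv hs)
      · exact Or.inr (E.qr v s hv hs)
      · exact Or.inl (E.rt v s hv hs)
    · simp [nb, hvs] at h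
  | t v s =>
    by_cases hvs : v < I.U ∧ s < I.m
    · obtain ⟨hv, hs⟩ := hvs
      rw [I.nb_t hv hs] at h
      simp only [mem_insert, mem_singleton] at h
      rcases h with rfl | rfl | rfl
      · exact Or.inr (E.qt v s hv hs)
      · exact Or.inr (E.rt v s hv hs)
      · exact Or.inl (E.tu v s hv hs)
    · simp [nb, hvs] at h
  | z v s =>
    by_cases hvs : v < I.U ∧ s < I.m
    · obtain ⟨hv, hs⟩ := hvs
      rw [I.nb_z hv hs] at h
      by_cases ha : I.atm s = v
      · subst ha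
        simp only [if_true, mem_insert, mem_singleton] at h
        rcases h with rfl | rfl
        · exact Or.inr (E.uz _ s hv hs)
        · exact Or.inl (E.zx s hs)
      · simp only [ha, if_false, mem_singleton] at h
        subst h
        exact Or.inr (E.uz _ s hv hs)
    · simp [nb, hvs] at h
  | x s =>
    by_cases hs : s < I.m
    · rw [I.nb_x hs] at h
      simp only [mem_insert, mem_singleton] at h
      rcases h with rfl | rfl
      · exact Or.inr (E.zx s hs)
      · exact Or.inl (E.xy s hs)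
    · simp [nb, hs] at h
  | y c =>
    by_cases hc : c < I.C
    · rw [I.nb_y hc] at h
      simp only [mem_insert, mem_singleton] at h
      rcases h with rfl | rfl | rfl | rfl
      · exact Or.inl (E.yl c hc)
      · right
        have := E.xy (I := I) (3 * c) (by unfold m; omega)
        rwa [show 3 * c / 3 = c by omega] at this
      · right
        have := E.xy (I := I) (3 * c + 1) (by unfold m; omega)
        rwa [show (3 * c + 1) / 3 = c by omega] at this
      · right
        have := E.xy (I := I) (3 * c + 2) (by unfold m; omega)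
        rwa [show (3 * c + 2) / 3 = c by omega] at this
    · simp [nb, hc] at h
  | l c =>
    by_cases hc : c < I.C
    · rw [I.nb_l hc] at h
      simp only [mem_singleton] at h
      subst h
      exact Or.inr (E.yl c hc)
    · simp [nb, hc] at h

theorem mem_nb {a b : GV} : b ∈ I.nb a ↔ I.E a b ∨ I.E b a := by
  constructor
  · exact I.nb_E
  · rintro (h | h)
    · exact (I.E_nb h).1
    · exact (I.E_nb h).2

/-- The base graph. -/
def G : LG GV where
  nb := I.nb
  symm := by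
    intro a b h
    rw [I.mem_nb] at h ⊢
    exact h.symm

/-- The shifts. -/
def k : GV → ℕ
  | .u _ _ => 3
  | .p _ _ => 3
  | .q _ _ => 3
  | .r _ _ => 3
  | .t _ _ => 3
  | .z _ _ => 8
  | .x s => 7 + I.sg s
  | .y _ => 16
  | .l _ => 16

theorem irr (a : GV) : a ∉ I.nb a := by
  intro h
  rcases I.nb_E h with h | h <;> cases h

/-- The conditions for a shifted weighting, edge by edge. -/
theorem shift_iff : I.G.Shift I.k ↔ ∃ w : GV → GV → ℕ, (∀ a b, w a b = w b a) ∧
    (∀ a b, I.E a b → w a b ≤ 1 ∧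
      I.k a + ∑ x ∈ I.nb a, w a x ≠ I.k b + ∑ x ∈ I.nb b, w b x) := by
  constructor
  · rintro ⟨w, h1, h2, h3⟩
    exact ⟨w, h1, fun a b h => ⟨h2 a b (I.E_nb h).1, h3 a b (I.E_nb h).1⟩⟩
  · rintro ⟨w, h1, h2⟩
    refine ⟨w, h1, fun a b h => ?_, fun a b h => ?_⟩
    · rcases I.nb_E h with h | h
      · exact (h2 a b h).1
      · rw [h1]; exact (h2 b a h).1
    · rcases I.nb_E h with h | h
      · exact (h2 a b h).2
      · exact (h2 b a h).2.symm

section sums

variable (w : GV → GV → ℕ)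

theorem sum_u {v s : ℕ} (hv : v < I.U) (hs : s < I.m) : ∑ x ∈ I.nb (.u v s), w (.u v s) x =
    w (.u v s) (.p v s) + w (.u v s) (.t v (I.pv s)) + w (.u v s) (.z v s) := by
  rw [I.nb_u hv hs, sum_insert (by simp), sum_insert (by simp), sum_singleton]; ring

theorem sum_p {v s : ℕ} (hv : v < I.U) (hs : s < I.m) : ∑ x ∈ I.nb (.p v s), w (.p v s) x =
    w (.p v s) (.u v s) + w (.p v s) (.q v s) + w (.p v s) (.r v s) := by
  rw [I.nb_p hv hs, sum_insert (by simp), sum_insert (by simp), sum_singleton]; ring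

theorem sum_q {v s : ℕ} (hv : v < I.U) (hs : s < I.m) : ∑ x ∈ I.nb (.q v s), w (.q v s) x =
    w (.q v s) (.p v s) + w (.q v s) (.r v s) + w (.q v s) (.t v s) := by
  rw [I.nb_q hv hs, sum_insert (by simp), sum_insert (by simp), sum_singleton]; ring

theorem sum_r {v s : ℕ} (hv : v < I.U) (hs : s < I.m) : ∑ x ∈ I.nb (.r v s), w (.r v s) x =
    w (.r v s) (.p v s) + w (.r v s) (.q v s) + w (.r v s) (.t v s) := by
  rw [I.nb_r hv hs, sum_insert (by simp), sum_insert (by simp), sum_singleton]; ring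

theorem sum_t {v s : ℕ} (hv : v < I.U) (hs : s < I.m) : ∑ x ∈ I.nb (.t v s), w (.t v s) x =
    w (.t v s) (.q v s) + w (.t v s) (.r v s) + w (.t v s) (.u v (I.nx s)) := by
  rw [I.nb_t hv hs, sum_insert (by simp), sum_insert (by simp), sum_singleton]; ring

theorem sum_z {v s : ℕ} (hv : v < I.U) (hs : s < I.m) : ∑ x ∈ I.nb (.z v s), w (.z v s) x =
    w (.z v s) (.u v s) + (if I.atm s = v then w (.z v s) (.x s) else 0) := by
  rw [I.nb_z hv hs]
  split_ifs
  · rw [sum_insert (by simp), sum_singleton]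
  · rw [sum_singleton, add_zero]

theorem sum_x {s : ℕ} (hs : s < I.m) : ∑ x ∈ I.nb (.x s), w (.x s) x =
    w (.x s) (.z (I.atm s) s) + w (.x s) (.y (s / 3)) := by
  rw [I.nb_x hs, sum_insert (by simp), sum_singleton]

theorem sum_y {c : ℕ} (hc : c < I.C) : ∑ x ∈ I.nb (.y c), w (.y c) x =
    w (.y c) (.l c) + w (.y c) (.x (3 * c)) + w (.y c) (.x (3 * c + 1)) +
      w (.y c) (.x (3 * c + 2)) := by
  rw [I.nb_y hc, sum_insert (by simp), sum_insert (by simp), sum_insert (by simp),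
    sum_singleton]; ring

theorem sum_l {c : ℕ} (hc : c < I.C) : ∑ x ∈ I.nb (.l c), w (.l c) x = w (.l c) (.y c) := by
  rw [I.nb_l hc, sum_singleton]

end sums

end Inst

end Pool.Agent.WC2
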