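import Mathlib
import Pool.Agent.PT.CookLevin
import Pool.Agent.WC2.Gadget

/-!
# The shifted weighting problem of the gadget graph is satisfiability
-/

set_option autoImplicit false

namespace Pool.Agent.WC2

open Finset
open Pool.Agent.PT (lholds)

/-- The diamond transports its input. -/
theorem diamond (x y a b c d e : ℕ) (hx : x ≤ 1) (hy : y ≤ 1) (ha : a ≤ 1) (hb : b ≤ 1)
    (hc : c ≤ 1) (hd : d ≤ 1) (he : e ≤ 1) (h1 : x + a + b ≠ a + e + c)
    (h2 : x + a + b ≠ b + e + d) (h3 : a + e + c ≠ b + e + d) (h4 : a + e + c ≠ c + d + y)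
    (h5 : b + e + d ≠ c + d + y) : x = y ∧ a + b = 1 ∧ c + d = 1 := by
  interval_cases x <;> interval_cases y <;> interval_cases a <;> interval_cases b <;>
    interval_cases c <;> interval_cases d <;> omega

namespace Inst

variable (I : Inst)

theorem sat_of_shift (h : I.G.Shift I.k) :
    ∃ α : ℕ → Prop, ∀ c, c < I.C → ∃ j, j < 3 ∧ lholds α (I.lit c j) := by
  rw [I.shift_iff] at h
  obtain ⟨w, hsym, hE⟩ := h
  -- the diamonds
  have hD : ∀ v s, v < I.U → s < I.m →
      w (.u v s) (.p v s) = w (.t v s) (.u v (I.nx s)) ∧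
      w (.p v s) (.q v s) + w (.p v s) (.r v s) = 1 ∧
      w (.t v s) (.q v s) + w (.t v s) (.r v s) = 1 := by
    intro v s hv hs
    obtain ⟨l1, -⟩ := hE _ _ (E.up v s hv hs)
    obtain ⟨l2, h2⟩ := hE _ _ (E.pq v s hv hs)
    obtain ⟨l3, h3⟩ := hE _ _ (E.pr v s hv hs)
    obtain ⟨l4, h4⟩ := hE _ _ (E.qr v s hv hs)
    obtain ⟨l5, h5⟩ := hE _ _ (E.qt v s hv hs)
    obtain ⟨l6, h6⟩ := hE _ _ (E.rt v s hv hs)
    obtain ⟨l7, -⟩ := hE _ _ (E.tu v s hv hs)
    rw [I.sum_p w hv hs, I.sum_q w hv hs] at h2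
    rw [I.sum_p w hv hs, I.sum_r w hv hs] at h3
    rw [I.sum_q w hv hs, I.sum_r w hv hs] at h4
    rw [I.sum_q w hv hs, I.sum_t w hv hs] at h5
    rw [I.sum_r w hv hs, I.sum_t w hv hs] at h6
    simp only [k] at h2 h3 h4 h5 h6
    rw [hsym (.p v s) (.u v s), hsym (.q v s) (.p v s)] at h2
    rw [hsym (.p v s) (.u v s), hsym (.r v s) (.p v s), hsym (.r v s) (.q v s)] at h3
    rw [hsym (.q v s) (.p v s), hsym (.r v s) (.p v s), hsym (.r v s) (.q v s)] at h4
    rw [hsym (.q v s) (.p v s), hsym (.t v s) (.q v s), hsym (.t v s) (.r v s)] at h5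
    rw [hsym (.r v s) (.p v s), hsym (.r v s) (.q v s), hsym (.t v s) (.q v s),
      hsym (.t v s) (.r v s)] at h6
    rw [hsym (.t v s) (.q v s), hsym (.t v s) (.r v s)]
    exact diamond _ _ _ _ _ _ (w (.q v s) (.r v s)) l1 l7 l2 l3 l5 l6 l4 (by omega) (by omega)
      (by omega) (by omega) (by omega)
  -- the three edges at a `u`-vertex are equal
  have hU : ∀ v s, v < I.U → s < I.m →
      w (.u v s) (.p v s) = w (.u v s) (.z v s) ∧
      w (.u v s) (.t v (I.pv s)) = w (.u v s) (.z v s) := by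
    intro v s hv hs
    obtain ⟨l1, h1⟩ := hE _ _ (E.up v s hv hs)
    obtain ⟨l2, h2⟩ := hE _ _ (E.tu v (I.pv s) hv (I.pv_lt hs))
    obtain ⟨l3, -⟩ := hE _ _ (E.uz v s hv hs)
    obtain ⟨-, d1, -⟩ := hD v s hv hs
    obtain ⟨-, -, d2⟩ := hD v (I.pv s) hv (I.pv_lt hs)
    rw [I.nx_pv hs] at h2 l2
    rw [I.sum_u w hv hs, I.sum_p w hv hs] at h1
    rw [I.sum_t w hv (I.pv_lt hs), I.sum_u w hv hs, I.nx_pv hs] at h2
    simp only [k] at h1 h2
    rw [hsym (.p v s) (.u v s)] at h1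
    rw [hsym (.t v (I.pv s)) (.u v s)] at h2 l2
    omega
  -- the value is the same along the row
  have hnx : ∀ v s, v < I.U → s < I.m → w (.u v s) (.z v s) =
      w (.u v (I.nx s)) (.z v (I.nx s)) := by
    intro v s hv hs
    obtain ⟨d1, -, -⟩ := hD v s hv hs
    obtain ⟨u1, -⟩ := hU v s hv hs
    obtain ⟨-, u2⟩ := hU v (I.nx s) hv (I.nx_lt hs)
    rw [I.pv_nx hs, hsym (.u v (I.nx s)) (.t v s)] at u2
    omega
  have hrow : ∀ v s, v < I.U → s < I.m → w (.u v s) (.z v s) = w (.u v 0) (.z v 0) := by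
    intro v s hv
    induction s with
    | zero => intro _; rfl
    | succ s ih =>
      intro hs
      have h1 := hnx v s hv (by omega)
      have h2 : I.nx s = s + 1 := by unfold nx; exact Nat.mod_eq_of_lt hs
      rw [h2] at h1
      rw [← h1]
      exact ih (by omega)
  refine ⟨fun v => w (.u v 0) (.z v 0) = 1, fun c hc => ?_⟩
  -- slots
  have hslot : ∀ s, s < I.m → w (.x s) (.y (s / 3)) ≠ 0 →
      lholds (fun v => w (.u v 0) (.z v 0) = 1) (I.lit (s / 3) (s % 3)) := by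
    intro s hs hne
    obtain ⟨l1, h1⟩ := hE _ _ (E.zx s hs)
    obtain ⟨l2, -⟩ := hE _ _ (E.xy s hs)
    obtain ⟨l3, -⟩ := hE _ _ (E.uz _ s (I.atm_lt hs) hs)
    rw [I.sum_z w (I.atm_lt hs) hs, if_pos rfl, I.sum_x w hs] at h1
    simp only [k] at h1
    rw [hsym (.z (I.atm s) s) (.u (I.atm s) s), hsym (.x s) (.z (I.atm s) s)] at h1
    have h2 := hrow _ s (I.atm_lt hs) hs
    unfold lholds
    change if I.sg s = 0 then w (.u (I.atm s) 0) (.z (I.atm s) 0) = 1 else
      ¬ w (.u (I.atm s) 0) (.z (I.atm s) 0) = 1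
    have h3 : I.sg s < 2 := Nat.mod_lt _ (by omega)
    split_ifs <;> omega
  obtain ⟨-, h1⟩ := hE _ _ (E.yl c hc)
  rw [I.sum_y w hc, I.sum_l w hc] at h1
  simp only [k] at h1
  rw [hsym (.l c) (.y c)] at h1
  have h2 : w (.y c) (.x (3 * c)) ≠ 0 ∨ w (.y c) (.x (3 * c + 1)) ≠ 0 ∨
      w (.y c) (.x (3 * c + 2)) ≠ 0 := by omega
  rcases h2 with h2 | h2 | h2
  · have h3 := hslot (3 * c) (by unfold m; omega)
    rw [show 3 * c / 3 = c by omega, show 3 * c % 3 = 0 by omega, hsym] at h3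
    exact ⟨0, by omega, h3 h2⟩
  · have h3 := hslot (3 * c + 1) (by unfold m; omega)
    rw [show (3 * c + 1) / 3 = c by omega, show (3 * c + 1) % 3 = 1 by omega, hsym] at h3
    exact ⟨1, by omega, h3 h2⟩
  · have h3 := hslot (3 * c + 2) (by unfold m; omega)
    rw [show (3 * c + 2) / 3 = c by omega, show (3 * c + 2) % 3 = 2 by omega, hsym] at h3
    exact ⟨2, by omega, h3 h2⟩

/-- The weights for an assignment, on oriented edges. -/
def w0 (bit : ℕ → ℕ) (e2 : ℕ → ℕ) : GV → GV → ℕ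
  | .u v _, .p _ _ => bit v
  | .t v _, .u _ _ => bit v
  | .u v _, .z _ _ => bit v
  | .p _ _, .q _ _ => 1
  | .q _ _, .t _ _ => 1
  | .q v _, .r _ _ => bit v
  | .x s, .y _ => e2 s
  | _, _ => 0

theorem shift_of_sat (α : ℕ → Prop) (h : ∀ c, c < I.C → ∃ j, j < 3 ∧ lholds α (I.lit c j)) :
    I.G.Shift I.k := by
  classical
  rw [I.shift_iff]
  set bit : ℕ → ℕ := fun v => if α v then 1 else 0 with hbit
  set e2 : ℕ → ℕ := fun s => if lholds α (I.lit (s / 3) (s % 3)) then 1 else 0 with he2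
  have hb : ∀ v, bit v ≤ 1 := fun v => by simp only [hbit]; split_ifs <;> omega
  have he : ∀ v, e2 v ≤ 1 := fun v => by simp only [he2]; split_ifs <;> omega
  obtain ⟨W, hW⟩ : ∃ W : GV → GV → ℕ, ∀ a b, W a b = w0 bit e2 a b + w0 bit e2 b a :=
    ⟨_, fun _ _ => rfl⟩
  refine ⟨W, fun a b => by rw [hW, hW, Nat.add_comm], ?_⟩
  intro a b hab
  cases hab with
  | up v s hv hs =>
    have := hb v
    refine ⟨by simpa [hW, w0] using this, ?_⟩
    rw [I.sum_u _ hv hs, I.sum_p _ hv hs]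
    simp only [hW, w0, k]
    omega
  | pq v s hv hs =>
    have := hb v
    refine ⟨by simp [hW, w0], ?_⟩
    rw [I.sum_p _ hv hs, I.sum_q _ hv hs]
    simp only [hW, w0, k]
    omega
  | pr v s hv hs =>
    have := hb v
    refine ⟨by simp [hW, w0], ?_⟩
    rw [I.sum_p _ hv hs, I.sum_r _ hv hs]
    simp only [hW, w0, k]
    omega
  | qr v s hv hs =>
    have := hb v
    refine ⟨by simpa [hW, w0] using this, ?_⟩
    rw [I.sum_q _ hv hs, I.sum_r _ hv hs]
    simp only [hW, w0, k]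
    omega
  | qt v s hv hs =>
    have := hb v
    refine ⟨by simp [hW, w0], ?_⟩
    rw [I.sum_q _ hv hs, I.sum_t _ hv hs]
    simp only [hW, w0, k]
    omega
  | rt v s hv hs =>
    have := hb v
    refine ⟨by simp [hW, w0], ?_⟩
    rw [I.sum_r _ hv hs, I.sum_t _ hv hs]
    simp only [hW, w0, k]
    omega
  | tu v s hv hs =>
    have := hb v
    refine ⟨by simpa [hW, w0] using this, ?_⟩
    rw [I.sum_t _ hv hs, I.sum_u _ hv (I.nx_lt hs), I.pv_nx hs]
    simp only [hW, w0, k]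
    omega
  | uz v s hv hs =>
    have := hb v
    refine ⟨by simpa [hW, w0] using this, ?_⟩
    rw [I.sum_u _ hv hs, I.sum_z _ hv hs]
    simp only [hW, w0, k]
    split_ifs <;> omega
  | zx s hs =>
    have h1 := hb (I.atm s)
    have h2 := he s
    refine ⟨by simp [hW, w0], ?_⟩
    rw [I.sum_z _ (I.atm_lt hs) hs, I.sum_x _ hs, if_pos rfl]
    simp only [hW, w0, k]
    have h3 : e2 s = if I.sg s = 0 then bit (I.atm s) else 1 - bit (I.atm s) := by
      simp only [he2, hbit]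
      unfold lholds sg atm
      split_ifs <;> simp_all
    have h4 : I.sg s < 2 := Nat.mod_lt _ (by omega)
    rw [h3]
    split_ifs <;> omega
  | xy s hs =>
    have hc : s / 3 < I.C := by unfold m at hs; omega
    have h2 := he s
    have h3 := he (3 * (s / 3))
    have h4 := he (3 * (s / 3) + 1)
    have h5 := he (3 * (s / 3) + 2)
    have h6 : I.sg s < 2 := Nat.mod_lt _ (by omega)
    refine ⟨by simpa [hW, w0] using h2, ?_⟩
    rw [I.sum_x _ hs, I.sum_y _ hc]
    simp only [hW, w0, k]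
    omega
  | yl c hc =>
    refine ⟨by simp [hW, w0], ?_⟩
    rw [I.sum_y _ hc, I.sum_l _ hc]
    simp only [hW, w0, k]
    obtain ⟨j, hj, hh⟩ := h c hc
    have h1 : e2 (3 * c + j) = 1 := by
      simp only [he2]
      rw [show (3 * c + j) / 3 = c by omega, show (3 * c + j) % 3 = j by omega, if_pos hh]
    have : j = 0 ∨ j = 1 ∨ j = 2 := by omega
    rcases this with rfl | rfl | rfl
    · rw [Nat.add_zero] at h1; omega
    · omega
    · omega

theorem shift_iff_sat : I.G.Shift I.k ↔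
    ∃ α : ℕ → Prop, ∀ c, c < I.C → ∃ j, j < 3 ∧ lholds α (I.lit c j) :=
  ⟨I.sat_of_shift, fun ⟨α, h⟩ => I.shift_of_sat α h⟩

theorem card_nb_le (a : GV) : (I.nb a).card ≤ I.k a := by
  have h2 : ∀ (a b : GV), ({a, b} : Finset GV).card ≤ 2 := fun a b => card_le_two
  have h3 : ∀ (a b c : GV), ({a, b, c} : Finset GV).card ≤ 3 := fun a b c => card_le_three
  have h4 : ∀ (a b c d : GV), ({a, b, c, d} : Finset GV).card ≤ 4 := fun a b c d => card_le_four
  cases a with
  | u v s => simp only [nb, k]; split_ifs; exacts [h3 _ _ _, by simp]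
  | p v s => simp only [nb, k]; split_ifs; exacts [h3 _ _ _, by simp]
  | q v s => simp only [nb, k]; split_ifs; exacts [h3 _ _ _, by simp]
  | r v s => simp only [nb, k]; split_ifs; exacts [h3 _ _ _, by simp]
  | t v s => simp only [nb, k]; split_ifs; exacts [h3 _ _ _, by simp]
  | z v s =>
    simp only [nb, k]; split_ifs
    · exact (h2 _ _).trans (by omega)
    · simp
    · simp
  | x s => simp only [nb, k]; split_ifs; exacts [(h2 _ _).trans (by omega), by simp]
  | y s => simp only [nb, k]; split_ifs; exacts [(h4 _ _ _ _).trans (by omega), by simp]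
  | l s => simp only [nb, k]; split_ifs <;> simp

end Inst

end Pool.Agent.WC2
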