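import Mathlib
import Pool.Agent.WC2.LG

/-!
# Numbering the vertices
-/

set_option autoImplicit false

namespace Pool.Agent.WC2

open Finset

variable {V : Type}

/-- The graph on `{0, …, N-1}` obtained by numbering the vertices by `ι`. -/
def LG.toGraph (G : LG V) (hirr : ∀ a, a ∉ G.nb a) (ι : V → ℕ) (N : ℕ)
    (hinj : ∀ a b, (G.nb a).Nonempty → (G.nb b).Nonempty → ι a = ι b → a = b) :
    SimpleGraph (Fin N) where
  Adj i j := ∃ a b, b ∈ G.nb a ∧ ι a = i ∧ ι b = j
  symm := ⟨by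
    rintro i j ⟨a, b, h, ha, hb⟩
    exact ⟨b, a, G.symm h, hb, ha⟩⟩
  loopless := ⟨by
    rintro i ⟨a, b, h, ha, hb⟩
    have : a = b := hinj a b ⟨b, h⟩ ⟨a, G.symm h⟩ (ha.trans hb.symm)
    subst this
    exact hirr a h⟩

theorem LG.toGraph_colourable [Nonempty V] (G : LG V) (hirr : ∀ a, a ∉ G.nb a) (ι : V → ℕ) (N : ℕ)
    (hinj : ∀ a b, (G.nb a).Nonempty → (G.nb b).Nonempty → ι a = ι b → a = b)
    (hN : ∀ a, (G.nb a).Nonempty → ι a < N) (S : Set ℝ) :
    SColourable (G.toGraph hirr ι N hinj) S ↔ G.SC S := by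
  classical
  set H := G.toGraph hirr ι N hinj with hH
  -- sums correspond
  have hsum : ∀ (w : Sym2 (Fin N) → ℝ) (w' : V → V → ℝ) (a : V) (i : Fin N)
      (ha : (G.nb a).Nonempty) (hi : ι a = i),
      (∀ b (hb : b ∈ G.nb a), ∀ j : Fin N, ι b = j → w s(i, j) = w' a b) →
      vsum H w i = ∑ b ∈ G.nb a, w' a b := by
    intro w w' a i ha hi hww
    unfold vsum
    symm
    refine Finset.sum_bij (fun b hb => (⟨ι b, hN b ⟨a, G.symm hb⟩⟩ : Fin N)) ?_ ?_ ?_ ?_
    · intro b hb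
      rw [SimpleGraph.mem_neighborFinset]
      exact ⟨a, b, hb, hi, rfl⟩
    · intro b hb c hc h
      have : ι b = ι c := by simpa using h
      exact hinj b c ⟨a, G.symm hb⟩ ⟨a, G.symm hc⟩ this
    · intro j hj
      rw [SimpleGraph.mem_neighborFinset] at hj
      obtain ⟨a', b, hb, ha', hb'⟩ := hj
      have : a' = a := hinj a' a ⟨b, hb⟩ ha (ha'.trans hi.symm)
      subst this
      exact ⟨b, hb, Fin.ext hb'⟩
    · intro b hb
      exact (hww b hb _ rfl).symm
  constructor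
  · rintro ⟨w, hS, hne⟩
    set f : V → V → ℝ := fun a b => if h : ι a < N ∧ ι b < N then
      w s(⟨ι a, h.1⟩, ⟨ι b, h.2⟩) else 0 with hf
    have hfe : ∀ a b (i j : Fin N), ι a = i → ι b = j → w s(i, j) = f a b := by
      intro a b i j ha hb
      have h : ι a < N ∧ ι b < N := ⟨by omega, by omega⟩
      simp only [hf, dif_pos h]
      congr 2
      · exact Fin.ext ha.symm
      · exact Fin.ext hb.symm
    refine ⟨f, ?_, ?_, ?_⟩
    · intro a b
      by_cases h : ι a < N ∧ ι b < N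
      · simp only [hf]
        rw [dif_pos h, dif_pos h.symm, Sym2.eq_swap]
      · simp only [hf]
        rw [dif_neg h, dif_neg (fun h' => h h'.symm)]
    · intro a b hb
      have h1 := hN a ⟨b, hb⟩
      have h2 := hN b ⟨a, G.symm hb⟩
      rw [← hfe a b ⟨ι a, h1⟩ ⟨ι b, h2⟩ rfl rfl]
      apply hS
      rw [SimpleGraph.mem_edgeSet]
      exact ⟨a, b, hb, rfl, rfl⟩
    · intro a b hb
      have h1 := hN a ⟨b, hb⟩
      have h2 := hN b ⟨a, G.symm hb⟩
      have h3 := hne ⟨ι a, h1⟩ ⟨ι b, h2⟩ ⟨a, b, hb, rfl, rfl⟩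
      rwa [hsum w f a ⟨ι a, h1⟩ ⟨b, hb⟩ rfl (fun c _ j hj => hfe a c _ j rfl hj),
        hsum w f b ⟨ι b, h2⟩ ⟨a, G.symm hb⟩ rfl (fun c _ j hj => hfe b c _ j rfl hj)] at h3
  · rintro ⟨f, hsym, hS, hne⟩
    set inv : Fin N → V := fun i => if h : ∃ a, (G.nb a).Nonempty ∧ ι a = i then h.choose
      else Classical.arbitrary V with hinv
    have hinva : ∀ a (i : Fin N), (G.nb a).Nonempty → ι a = i → inv i = a := by
      intro a i ha hi
      have h : ∃ a, (G.nb a).Nonempty ∧ ι a = i := ⟨a, ha, hi⟩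
      simp only [hinv, dif_pos h]
      exact hinj _ _ h.choose_spec.1 ha (h.choose_spec.2.trans hi.symm)
    set w : Sym2 (Fin N) → ℝ := Sym2.lift ⟨fun i j => f (inv i) (inv j), fun i j => hsym _ _⟩
      with hw
    have hwe : ∀ a b (i j : Fin N), b ∈ G.nb a → ι a = i → ι b = j → w s(i, j) = f a b := by
      intro a b i j hb ha' hb'
      simp only [hw, Sym2.lift_mk]
      rw [hinva a i ⟨b, hb⟩ ha', hinva b j ⟨a, G.symm hb⟩ hb']
    refine ⟨w, ?_, ?_⟩
    · intro e
      induction e using Sym2.ind with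
      | _ i j =>
        intro he
        rw [SimpleGraph.mem_edgeSet] at he
        obtain ⟨a, b, hb, ha', hb'⟩ := he
        rw [hwe a b i j hb ha' hb']
        exact hS a b hb
    · rintro i j ⟨a, b, hb, ha', hb'⟩
      rw [hsum w f a i ⟨b, hb⟩ ha' (fun c hc j hj => hwe a c i j hc ha' hj),
        hsum w f b j ⟨a, G.symm hb⟩ hb' (fun c hc i hi => hwe b c j i hc hb' hi)]
      exact hne a b hb

end Pool.Agent.WC2
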