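import Mathlib
import Pool.Agent.PT.CookLevin
import Pool.Agent.WC2.Sat
import Pool.Agent.WC2.Transport

/-!
# The reduction: numbering the gadget graph
-/

set_option autoImplicit false

namespace Pool.Agent.WC2

open Finset
open Pool.Agent.PT

namespace Inst

variable (I : Inst)

/-- The number of pendant paths. -/
noncomputable def k' (a : GV) : ℕ := open Classical in if (I.nb a).Nonempty then I.k a else 0

theorem shift_k' : I.G.Shift I.k' ↔ I.G.Shift I.k := by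
  classical
  have h : ∀ a b, b ∈ I.nb a → I.k' a = I.k a := fun a b hb => if_pos ⟨b, hb⟩
  constructor
  · rintro ⟨w, h1, h2, h3⟩
    refine ⟨w, h1, h2, fun a b hb => ?_⟩
    have := h3 a b hb
    rwa [h a b hb, h b a (I.G.symm hb)] at this
  · rintro ⟨w, h1, h2, h3⟩
    refine ⟨w, h1, h2, fun a b hb => ?_⟩
    rw [h a b hb, h b a (I.G.symm hb)]
    exact h3 a b hb

theorem card_nb_le' (a : GV) : (I.nb a).card ≤ I.k' a := by
  classical
  unfold k'
  split_ifs with h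
  · exact I.card_nb_le a
  · rw [not_nonempty_iff_eq_empty.1 h]; simp

/-- The final graph. -/
noncomputable def H : LG (PV GV) := I.G.pend I.k'

/-- The base vertices that are used. -/
def Val : GV → Prop
  | .u v s => v < I.U ∧ s < I.m
  | .p v s => v < I.U ∧ s < I.m
  | .q v s => v < I.U ∧ s < I.m
  | .r v s => v < I.U ∧ s < I.m
  | .t v s => v < I.U ∧ s < I.m
  | .z v s => v < I.U ∧ s < I.m
  | .x s => s < I.m
  | .y c => c < I.C
  | .l c => c < I.C

theorem nonempty_iff (a : GV) : (I.nb a).Nonempty ↔ I.Val a := by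
  constructor
  · intro h
    by_contra hv
    cases a <;> (unfold Val at hv; simp [nb, hv] at h)
  · intro h
    cases a with
    | u v s => rw [I.nb_u h.1 h.2]; simp
    | p v s => rw [I.nb_p h.1 h.2]; simp
    | q v s => rw [I.nb_q h.1 h.2]; simp
    | r v s => rw [I.nb_r h.1 h.2]; simp
    | t v s => rw [I.nb_t h.1 h.2]; simp
    | z v s => rw [I.nb_z h.1 h.2]; split_ifs <;> simp
    | x s => rw [I.nb_x h]; simp
    | y s => rw [I.nb_y h]; simp
    | l s => rw [I.nb_l h]; simp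

/-- Oriented edges of the final graph. -/
inductive PE : PV GV → PV GV → Prop
  | base (a b : GV) (h : I.E a b) : PE (.base a) (.base b)
  | pp (a : GV) (j : ℕ) (hv : I.Val a) (h : j < I.k a) : PE (.base a) (.pp a j)
  | qq (a : GV) (j : ℕ) (hv : I.Val a) (h : j < I.k a) : PE (.pp a j) (.qq a j)

theorem lt_k' {a : GV} {j : ℕ} : j < I.k' a ↔ I.Val a ∧ j < I.k a := by
  classical
  unfold k'
  rw [← I.nonempty_iff]
  split_ifs with h <;> simp [h]

theorem mem_H {P Q : PV GV} : Q ∈ I.H.nb P ↔ I.PE P Q ∨ I.PE Q P := by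
  constructor
  · intro h
    rcases P with a | ⟨a, i⟩ | ⟨a, i⟩ <;> rcases Q with b | ⟨b, j⟩ | ⟨b, j⟩
    · have h1 := (I.G.mem_base I.k' a b).1 h
      rcases I.nb_E h1 with h2 | h2
      · exact Or.inl (PE.base a b h2)
      · exact Or.inr (PE.base b a h2)
    · obtain ⟨rfl, hj⟩ := (I.G.mem_pp I.k' a b j).1 h
      obtain ⟨h1, h2⟩ := I.lt_k'.1 hj
      exact Or.inl (PE.pp _ _ h1 h2)
    · simp [H, LG.pend, PV.baseE, PV.ppE] at h
    · obtain ⟨rfl, hj⟩ := (I.G.mem_pp I.k' b a i).1 ((I.G.pend I.k').symm h)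
      obtain ⟨h1, h2⟩ := I.lt_k'.1 hj
      exact Or.inr (PE.pp _ _ h1 h2)
    · by_cases hi : i < I.k' a <;> simp [H, LG.pend, hi] at h
    · obtain ⟨rfl, rfl, hj⟩ := (I.G.mem_qq I.k' a b i j).1 h
      obtain ⟨h1, h2⟩ := I.lt_k'.1 hj
      exact Or.inl (PE.qq _ _ h1 h2)
    · by_cases hi : i < I.k' a <;> simp [H, LG.pend, hi] at h
    · obtain ⟨rfl, rfl, hj⟩ := (I.G.mem_qq I.k' b a j i).1 ((I.G.pend I.k').symm h)
      obtain ⟨h1, h2⟩ := I.lt_k'.1 hj
      exact Or.inr (PE.qq _ _ h1 h2)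
    · by_cases hi : i < I.k' a <;> simp [H, LG.pend, hi] at h
  · have key : ∀ {P Q : PV GV}, I.PE P Q → Q ∈ I.H.nb P := by
      intro P Q h
      cases h with
      | base a b h => exact (I.G.mem_base I.k' a b).2 (I.E_nb h).1
      | pp a j hv h => exact (I.G.mem_pp I.k' a a j).2 ⟨rfl, I.lt_k'.2 ⟨hv, h⟩⟩
      | qq a j hv h => exact (I.G.mem_qq I.k' a a j j).2 ⟨rfl, rfl, I.lt_k'.2 ⟨hv, h⟩⟩
    rintro (h | h)
    · exact key h
    · exact I.H.symm (key h)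

theorem H_irr (P : PV GV) : P ∉ I.H.nb P := by
  intro h
  rcases I.mem_H.1 h with h | h <;> cases h with
  | base a b h => exact I.irr _ (I.E_nb h).1

/-- Numbers of the base vertices. -/
def bn : GV → ℕ
  | .u v s => (v * I.m + s) * 9
  | .p v s => (v * I.m + s) * 9 + 1
  | .q v s => (v * I.m + s) * 9 + 2
  | .r v s => (v * I.m + s) * 9 + 3
  | .t v s => (v * I.m + s) * 9 + 4
  | .z v s => (v * I.m + s) * 9 + 5
  | .x s => s * 9 + 6
  | .y c => c * 9 + 7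
  | .l c => c * 9 + 8

/-- Numbers of the vertices. -/
def pn : PV GV → ℕ
  | .base a => 48 * I.bn a
  | .pp a j => 48 * I.bn a + 3 * j + 1
  | .qq a j => 48 * I.bn a + 3 * j + 2

/-- Number of vertices. -/
def NN : ℕ := 432 * (I.U * I.m)

theorem pair_inj {M v s v' s' : ℕ} (hs : s < M) (hs' : s' < M) (h : v * M + s = v' * M + s') :
    v = v' ∧ s = s' := by
  have hM : 0 < M := by omega
  have h1 : (v * M + s) / M = v := by
    rw [Nat.mul_comm, Nat.mul_add_div hM, Nat.div_eq_of_lt hs, Nat.add_zero]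
  have h2 : (v' * M + s') / M = v' := by
    rw [Nat.mul_comm, Nat.mul_add_div hM, Nat.div_eq_of_lt hs', Nat.add_zero]
  have h3 : v = v' := by rw [← h1, ← h2, h]
  subst h3
  exact ⟨rfl, by omega⟩

theorem bn_inj {a b : GV} (ha : I.Val a) (hb : I.Val b) (h : I.bn a = I.bn b) : a = b := by
  cases a <;> cases b <;> simp only [bn] at h <;> try (exfalso; omega)
  · rename_i v s v' s'
    obtain ⟨rfl, rfl⟩ := pair_inj (v := v) (v' := v') ha.2 hb.2 (by omega)
    rfl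
  · rename_i v s v' s'
    obtain ⟨rfl, rfl⟩ := pair_inj (v := v) (v' := v') ha.2 hb.2 (by omega)
    rfl
  · rename_i v s v' s'
    obtain ⟨rfl, rfl⟩ := pair_inj (v := v) (v' := v') ha.2 hb.2 (by omega)
    rfl
  · rename_i v s v' s'
    obtain ⟨rfl, rfl⟩ := pair_inj (v := v) (v' := v') ha.2 hb.2 (by omega)
    rfl
  · rename_i v s v' s'
    obtain ⟨rfl, rfl⟩ := pair_inj (v := v) (v' := v') ha.2 hb.2 (by omega)
    rfl
  · rename_i v s v' s'
    obtain ⟨rfl, rfl⟩ := pair_inj (v := v) (v' := v') ha.2 hb.2 (by omega)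
    rfl
  · rename_i s s'
    have : s = s' := by omega
    rw [this]
  · rename_i s s'
    have : s = s' := by omega
    rw [this]
  · rename_i s s'
    have : s = s' := by omega
    rw [this]


theorem pair_lt {M U v s : ℕ} (hv : v < U) (hs : s < M) : v * M + s < U * M := by
  have : (v + 1) * M ≤ U * M := Nat.mul_le_mul_right _ hv
  have e : (v + 1) * M = v * M + M := by ring
  omega

theorem m_le (h : 0 < I.U) : I.m ≤ I.U * I.m := Nat.le_mul_of_pos_left _ h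

theorem bn_lt (hU : 0 < I.U) {a : GV} (ha : I.Val a) : I.bn a < 9 * (I.U * I.m) := by
  have hm := I.m_le hU
  have hC : I.C ≤ I.m := by unfold m; omega
  cases a <;> simp only [bn] <;> first
    | (have := pair_lt ha.1 ha.2; omega)
    | (simp only [Val] at ha; omega)

theorem k_le {a : GV} : I.k a ≤ 16 := by
  have h : ∀ s, I.sg s < 2 := fun s => Nat.mod_lt _ (by omega)
  cases a <;> simp only [k] <;> try omega
  rename_i s
  have := h s
  omega

theorem val_of_nonempty {P : PV GV} (h : (I.H.nb P).Nonempty) :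
    match P with
    | .base a => I.Val a
    | .pp a j => I.Val a ∧ j < I.k a
    | .qq a j => I.Val a ∧ j < I.k a := by
  obtain ⟨Q, hQ⟩ := h
  rcases I.mem_H.1 hQ with h | h
  · cases h with
    | base a b h => exact (I.nonempty_iff a).1 ⟨b, (I.E_nb h).1⟩
    | pp a j hv h => exact hv
    | qq a j hv h => exact ⟨hv, h⟩
  · cases h with
    | base a b h => exact (I.nonempty_iff b).1 ⟨a, (I.E_nb h).2⟩
    | pp a j hv h => exact ⟨hv, h⟩
    | qq a j hv h => exact ⟨hv, h⟩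

theorem pn_inj (P Q : PV GV) (hP : (I.H.nb P).Nonempty) (hQ : (I.H.nb Q).Nonempty)
    (h : I.pn P = I.pn Q) : P = Q := by
  have h1 := I.val_of_nonempty hP
  have h2 := I.val_of_nonempty hQ
  rcases P with a | ⟨a, i⟩ | ⟨a, i⟩ <;> rcases Q with b | ⟨b, j⟩ | ⟨b, j⟩ <;>
    simp only [pn] at h h1 h2
  · have : a = b := I.bn_inj h1 h2 (by omega)
    rw [this]
  · exfalso; omega
  · exfalso; omega
  · exfalso; omega
  · have hi := I.k_le (a := a)
    have hj := I.k_le (a := b)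
    have : a = b := I.bn_inj h1.1 h2.1 (by omega)
    subst this
    have : i = j := by omega
    rw [this]
  · exfalso; omega
  · exfalso; omega
  · exfalso; omega
  · have hi := I.k_le (a := a)
    have hj := I.k_le (a := b)
    have : a = b := I.bn_inj h1.1 h2.1 (by omega)
    subst this
    have : i = j := by omega
    rw [this]

theorem pn_lt (hU : 0 < I.U) (P : PV GV) (hP : (I.H.nb P).Nonempty) : I.pn P < I.NN := by
  have h1 := I.val_of_nonempty hP
  unfold NN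
  rcases P with a | ⟨a, i⟩ | ⟨a, i⟩ <;> simp only [pn] at h1 ⊢
  · have := I.bn_lt hU h1
    omega
  · have := I.bn_lt hU h1.1
    have := I.k_le (a := a)
    omega
  · have := I.bn_lt hU h1.1
    have := I.k_le (a := a)
    omega

/-- The final graph as a graph on numbers. -/
noncomputable def graph : SimpleGraph (Fin I.NN) := I.H.toGraph I.H_irr I.pn I.NN I.pn_inj

theorem graph_colourable (hU : 0 < I.U) (S : Set ℝ) : SColourable I.graph S ↔ I.H.SC S := by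
  have : Nonempty (PV GV) := ⟨.base (.x 0)⟩
  exact I.H.toGraph_colourable I.H_irr I.pn I.NN I.pn_inj (I.pn_lt hU) S

theorem finite_val : ∃ F : Finset GV, ∀ a, (I.nb a).Nonempty → a ∈ F := by
  classical
  refine ⟨(range I.U ×ˢ range I.m).image (fun x => GV.u x.1 x.2) ∪
    (range I.U ×ˢ range I.m).image (fun x => GV.p x.1 x.2) ∪
    (range I.U ×ˢ range I.m).image (fun x => GV.q x.1 x.2) ∪
    (range I.U ×ˢ range I.m).image (fun x => GV.r x.1 x.2) ∪
    (range I.U ×ˢ range I.m).image (fun x => GV.t x.1 x.2) ∪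
    (range I.U ×ˢ range I.m).image (fun x => GV.z x.1 x.2) ∪
    (range I.m).image GV.x ∪ (range I.C).image GV.y ∪ (range I.C).image GV.l, fun a ha => ?_⟩
  rw [I.nonempty_iff] at ha
  cases a <;> simp only [Val] at ha <;> simp [ha]

/-- Two non-zero weights always suffice. -/
theorem graph_nonzero (hU : 0 < I.U) (S : Set ℝ) (hS : S.ncard = 2) (h0 : (0 : ℝ) ∉ S) :
    SColourable I.graph S := by
  rw [I.graph_colourable hU]
  obtain ⟨s, t, hst, rfl⟩ := Set.ncard_eq_two.1 hS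
  obtain ⟨F, hF⟩ := I.finite_val
  simp only [Set.mem_insert_iff, Set.mem_singleton_iff, not_or] at h0
  exact I.G.pend_nonzero I.k' I.card_nb_le' I.irr F hF s t hst (Ne.symm h0.1) (Ne.symm h0.2)

/-- The graph is 2-weight colourable iff the clauses are satisfiable. -/
theorem graph_kwc (hU : 0 < I.U) : KWC 2 I.graph ↔
    ∃ α : ℕ → Prop, ∀ c, c < I.C → ∃ j, j < 3 ∧ lholds α (I.lit c j) := by
  rw [← I.shift_iff_sat, ← I.shift_k']
  constructor
  · intro h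
    have h1 := h {0, 1} (Set.ncard_pair (by norm_num))
    rw [I.graph_colourable hU] at h1
    exact (I.G.pend_zero I.k' 1 one_ne_zero).1 h1
  · intro h S hS
    by_cases h0 : (0 : ℝ) ∈ S
    · obtain ⟨s, t, hst, rfl⟩ := Set.ncard_eq_two.1 hS
      rw [I.graph_colourable hU]
      rcases h0 with h0 | h0
      · subst h0
        exact (I.G.pend_zero I.k' t (Ne.symm hst)).2 h
      · have : (0 : ℝ) = t := h0
        subst this
        rw [Set.pair_comm]
        exact (I.G.pend_zero I.k' s hst).2 h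
    · exact I.graph_nonzero hU S hS h0

/-- The pendant paths at a base vertex, in numbers. -/
def PN (i j β k : ℕ) : Prop := ∃ j', j' < k ∧
  ((i = 48 * β ∧ j = 48 * β + 3 * j' + 1) ∨ (i = 48 * β + 3 * j' + 1 ∧ j = 48 * β + 3 * j' + 2))

/-- The oriented edges, in numbers. -/
def EN (U m C : ℕ) (atm sg : ℕ → ℕ) (i j : ℕ) : Prop :=
  (∃ v, v < U ∧ ∃ s, s < m ∧
    ((i = 48 * ((v * m + s) * 9) ∧ j = 48 * ((v * m + s) * 9 + 1)) ∨
     (i = 48 * ((v * m + s) * 9 + 1) ∧ j = 48 * ((v * m + s) * 9 + 2)) ∨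
     (i = 48 * ((v * m + s) * 9 + 1) ∧ j = 48 * ((v * m + s) * 9 + 3)) ∨
     (i = 48 * ((v * m + s) * 9 + 2) ∧ j = 48 * ((v * m + s) * 9 + 3)) ∨
     (i = 48 * ((v * m + s) * 9 + 2) ∧ j = 48 * ((v * m + s) * 9 + 4)) ∨
     (i = 48 * ((v * m + s) * 9 + 3) ∧ j = 48 * ((v * m + s) * 9 + 4)) ∨
     (i = 48 * ((v * m + s) * 9 + 4) ∧ j = 48 * ((v * m + (s + 1) % m) * 9)) ∨
     (i = 48 * ((v * m + s) * 9) ∧ j = 48 * ((v * m + s) * 9 + 5)) ∨
     PN i j ((v * m + s) * 9) 3 ∨ PN i j ((v * m + s) * 9 + 1) 3 ∨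
     PN i j ((v * m + s) * 9 + 2) 3 ∨ PN i j ((v * m + s) * 9 + 3) 3 ∨
     PN i j ((v * m + s) * 9 + 4) 3 ∨ PN i j ((v * m + s) * 9 + 5) 8)) ∨
  (∃ s, s < m ∧
    ((i = 48 * ((atm s * m + s) * 9 + 5) ∧ j = 48 * (s * 9 + 6)) ∨
     (i = 48 * (s * 9 + 6) ∧ j = 48 * (s / 3 * 9 + 7)) ∨ PN i j (s * 9 + 6) (7 + sg s))) ∨
  (∃ c, c < C ∧
    ((i = 48 * (c * 9 + 7) ∧ j = 48 * (c * 9 + 8)) ∨
      PN i j (c * 9 + 7) 16 ∨ PN i j (c * 9 + 8) 16))

theorem PN_iff {i j : ℕ} {a : GV} (ha : I.Val a) (h : PN i j (I.bn a) (I.k a)) :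
    ∃ P Q, I.PE P Q ∧ I.pn P = i ∧ I.pn Q = j := by
  obtain ⟨j', hj', ⟨rfl, rfl⟩ | ⟨rfl, rfl⟩⟩ := h
  · exact ⟨_, _, PE.pp a j' ha hj', rfl, rfl⟩
  · exact ⟨_, _, PE.qq a j' ha hj', rfl, rfl⟩

theorem EN_iff (i j : ℕ) : EN I.U I.m I.C I.atm I.sg i j ↔
    ∃ P Q, I.PE P Q ∧ I.pn P = i ∧ I.pn Q = j := by
  constructor
  · rintro (⟨v, hv, s, hs, h⟩ | ⟨s, hs, h⟩ | ⟨c, hc, h⟩)
    · rcases h with h | h | h | h | h | h | h | h | h | h | h | h | h | h
      · exact ⟨_, _, PE.base _ _ (E.up v s hv hs), h.1.symm, h.2.symm⟩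
      · exact ⟨_, _, PE.base _ _ (E.pq v s hv hs), h.1.symm, h.2.symm⟩
      · exact ⟨_, _, PE.base _ _ (E.pr v s hv hs), h.1.symm, h.2.symm⟩
      · exact ⟨_, _, PE.base _ _ (E.qr v s hv hs), h.1.symm, h.2.symm⟩
      · exact ⟨_, _, PE.base _ _ (E.qt v s hv hs), h.1.symm, h.2.symm⟩
      · exact ⟨_, _, PE.base _ _ (E.rt v s hv hs), h.1.symm, h.2.symm⟩
      · exact ⟨_, _, PE.base _ _ (E.tu v s hv hs), h.1.symm, h.2.symm⟩
      · exact ⟨_, _, PE.base _ _ (E.uz v s hv hs), h.1.symm, h.2.symm⟩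
      · exact I.PN_iff (a := .u v s) ⟨hv, hs⟩ h
      · exact I.PN_iff (a := .p v s) ⟨hv, hs⟩ h
      · exact I.PN_iff (a := .q v s) ⟨hv, hs⟩ h
      · exact I.PN_iff (a := .r v s) ⟨hv, hs⟩ h
      · exact I.PN_iff (a := .t v s) ⟨hv, hs⟩ h
      · exact I.PN_iff (a := .z v s) ⟨hv, hs⟩ h
    · rcases h with h | h | h
      · exact ⟨_, _, PE.base _ _ (E.zx s hs), h.1.symm, h.2.symm⟩
      · exact ⟨_, _, PE.base _ _ (E.xy s hs), h.1.symm, h.2.symm⟩
      · exact I.PN_iff (a := .x s) hs h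
    · rcases h with h | h | h
      · exact ⟨_, _, PE.base _ _ (E.yl c hc), h.1.symm, h.2.symm⟩
      · exact I.PN_iff (a := .y c) hc h
      · exact I.PN_iff (a := .l c) hc h
  · rintro ⟨P, Q, h, rfl, rfl⟩
    cases h with
    | base a b h =>
      cases h with
      | up v s hv hs => exact Or.inl ⟨v, hv, s, hs, Or.inl ⟨rfl, rfl⟩⟩
      | pq v s hv hs => exact Or.inl ⟨v, hv, s, hs, Or.inr (Or.inl ⟨rfl, rfl⟩)⟩
      | pr v s hv hs => exact Or.inl ⟨v, hv, s, hs, Or.inr (Or.inr (Or.inl ⟨rfl, rfl⟩))⟩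
      | qr v s hv hs =>
        exact Or.inl ⟨v, hv, s, hs, Or.inr (Or.inr (Or.inr (Or.inl ⟨rfl, rfl⟩)))⟩
      | qt v s hv hs =>
        exact Or.inl ⟨v, hv, s, hs, Or.inr (Or.inr (Or.inr (Or.inr (Or.inl ⟨rfl, rfl⟩))))⟩
      | rt v s hv hs =>
        exact Or.inl ⟨v, hv, s, hs, Or.inr (Or.inr (Or.inr (Or.inr (Or.inr (Or.inl
          ⟨rfl, rfl⟩)))))⟩
      | tu v s hv hs =>
        exact Or.inl ⟨v, hv, s, hs, Or.inr (Or.inr (Or.inr (Or.inr (Or.inr (Or.inr (Or.inl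
          ⟨rfl, rfl⟩))))))⟩
      | uz v s hv hs =>
        exact Or.inl ⟨v, hv, s, hs, Or.inr (Or.inr (Or.inr (Or.inr (Or.inr (Or.inr (Or.inr (Or.inl
          ⟨rfl, rfl⟩)))))))⟩
      | zx s hs => exact Or.inr (Or.inl ⟨s, hs, Or.inl ⟨rfl, rfl⟩⟩)
      | xy s hs => exact Or.inr (Or.inl ⟨s, hs, Or.inr (Or.inl ⟨rfl, rfl⟩)⟩)
      | yl c hc => exact Or.inr (Or.inr ⟨c, hc, Or.inl ⟨rfl, rfl⟩⟩)
    | pp a j hv h =>
      have key : PN (I.pn (.base a)) (I.pn (.pp a j)) (I.bn a) (I.k a) :=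
        ⟨j, h, Or.inl ⟨rfl, rfl⟩⟩
      cases a with
      | u v s => exact Or.inl ⟨v, hv.1, s, hv.2,
          Or.inr (Or.inr (Or.inr (Or.inr (Or.inr (Or.inr (Or.inr (Or.inr (Or.inl key))))))))⟩
      | p v s => exact Or.inl ⟨v, hv.1, s, hv.2,
          Or.inr (Or.inr (Or.inr (Or.inr (Or.inr (Or.inr (Or.inr (Or.inr (Or.inr (Or.inl key)))))))))⟩
      | q v s => exact Or.inl ⟨v, hv.1, s, hv.2,
          Or.inr (Or.inr (Or.inr (Or.inr (Or.inr (Or.inr (Or.inr (Or.inr (Or.inr (Or.inr (Or.inl key))))))))))⟩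
      | r v s => exact Or.inl ⟨v, hv.1, s, hv.2,
          Or.inr (Or.inr (Or.inr (Or.inr (Or.inr (Or.inr (Or.inr (Or.inr (Or.inr (Or.inr (Or.inr (Or.inl key)))))))))))⟩
      | t v s => exact Or.inl ⟨v, hv.1, s, hv.2,
          Or.inr (Or.inr (Or.inr (Or.inr (Or.inr (Or.inr (Or.inr (Or.inr (Or.inr (Or.inr (Or.inr (Or.inr (Or.inl key))))))))))))⟩
      | z v s => exact Or.inl ⟨v, hv.1, s, hv.2,
          Or.inr (Or.inr (Or.inr (Or.inr (Or.inr (Or.inr (Or.inr (Or.inr (Or.inr (Or.inr (Or.inr (Or.inr (Or.inr (key)))))))))))))⟩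
      | x s => exact Or.inr (Or.inl ⟨s, hv, Or.inr (Or.inr (key))⟩)
      | y c => exact Or.inr (Or.inr ⟨c, hv, Or.inr (Or.inl key)⟩)
      | l c => exact Or.inr (Or.inr ⟨c, hv, Or.inr (Or.inr (key))⟩)
    | qq a j hv h =>
      have key : PN (I.pn (.pp a j)) (I.pn (.qq a j)) (I.bn a) (I.k a) :=
        ⟨j, h, Or.inr ⟨rfl, rfl⟩⟩
      cases a with
      | u v s => exact Or.inl ⟨v, hv.1, s, hv.2,
          Or.inr (Or.inr (Or.inr (Or.inr (Or.inr (Or.inr (Or.inr (Or.inr (Or.inl key))))))))⟩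
      | p v s => exact Or.inl ⟨v, hv.1, s, hv.2,
          Or.inr (Or.inr (Or.inr (Or.inr (Or.inr (Or.inr (Or.inr (Or.inr (Or.inr (Or.inl key)))))))))⟩
      | q v s => exact Or.inl ⟨v, hv.1, s, hv.2,
          Or.inr (Or.inr (Or.inr (Or.inr (Or.inr (Or.inr (Or.inr (Or.inr (Or.inr (Or.inr (Or.inl key))))))))))⟩
      | r v s => exact Or.inl ⟨v, hv.1, s, hv.2,
          Or.inr (Or.inr (Or.inr (Or.inr (Or.inr (Or.inr (Or.inr (Or.inr (Or.inr (Or.inr (Or.inr (Or.inl key)))))))))))⟩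
      | t v s => exact Or.inl ⟨v, hv.1, s, hv.2,
          Or.inr (Or.inr (Or.inr (Or.inr (Or.inr (Or.inr (Or.inr (Or.inr (Or.inr (Or.inr (Or.inr (Or.inr (Or.inl key))))))))))))⟩
      | z v s => exact Or.inl ⟨v, hv.1, s, hv.2,
          Or.inr (Or.inr (Or.inr (Or.inr (Or.inr (Or.inr (Or.inr (Or.inr (Or.inr (Or.inr (Or.inr (Or.inr (Or.inr (key)))))))))))))⟩
      | x s => exact Or.inr (Or.inl ⟨s, hv, Or.inr (Or.inr (key))⟩)
      | y c => exact Or.inr (Or.inr ⟨c, hv, Or.inr (Or.inl key)⟩)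
      | l c => exact Or.inr (Or.inr ⟨c, hv, Or.inr (Or.inr (key))⟩)

theorem graph_adj (i j : Fin I.NN) : I.graph.Adj i j ↔
    EN I.U I.m I.C I.atm I.sg i j ∨ EN I.U I.m I.C I.atm I.sg j i := by
  rw [I.EN_iff, I.EN_iff]
  constructor
  · rintro ⟨P, Q, h, hP, hQ⟩
    rcases I.mem_H.1 h with h | h
    · exact Or.inl ⟨P, Q, h, hP, hQ⟩
    · exact Or.inr ⟨Q, P, h, hQ, hP⟩
  · rintro (⟨P, Q, h, hP, hQ⟩ | ⟨P, Q, h, hP, hQ⟩)
    · exact ⟨P, Q, I.mem_H.2 (Or.inl h), hP, hQ⟩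
    · exact ⟨Q, P, I.mem_H.2 (Or.inr h), hQ, hP⟩

end Inst

end Pool.Agent.WC2
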