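import Mathlib
import Pool.Agent.PT.Bits
import Pool.Agent.PT.CookLevin
import Pool.Agent.WC2.Numeric

/-!
# NP-hardness of 2-WC
-/

set_option autoImplicit false
set_option linter.unreachableTactic false
set_option linter.unusedTactic false

namespace Pool.Agent.WC2

open Finset
open Pool.Agent.PT

variable {Γ : Type}

/-- The clauses belonging to a word. -/
def inst (n : List Γ → ℕ) (lit : List Γ → ℕ → ℕ → ℕ) (x : List Γ) : Inst where
  U := 1 + ∑ c ∈ range (n x), ∑ j ∈ range 3, lit x c j
  C := n x
  lit := lit x
  hlit c hc j hj := by
    have h1 : lit x c j ≤ ∑ j ∈ range 3, lit x c j :=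
      Finset.single_le_sum (f := fun j => lit x c j) (fun _ _ => Nat.zero_le _) (mem_range.2 hj)
    have h2 : ∑ j ∈ range 3, lit x c j ≤ ∑ c ∈ range (n x), ∑ j ∈ range 3, lit x c j :=
      Finset.single_le_sum (f := fun c => ∑ j ∈ range 3, lit x c j) (fun _ _ => Nat.zero_le _)
        (mem_range.2 hc)
    omega

theorem adjBits_inj {n n' : ℕ} {G : SimpleGraph (Fin n)} {G' : SimpleGraph (Fin n')}
    (h : adjBits G = adjBits G') (hG : KWC 2 G') : KWC 2 G := by
  classical
  have hlen := congrArg List.length h
  simp only [adjBits, List.length_map, List.length_range] at hlen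
  have hn : n = n' := Nat.mul_self_inj.1 hlen
  subst hn
  have : G = G' := by
    ext i j
    have hlt : i.val * n + j.val < n * n := by
      have : (i.val + 1) * n ≤ n * n := Nat.mul_le_mul_right _ i.isLt
      have e : (i.val + 1) * n = i.val * n + n := by ring
      have := j.isLt
      omega
    have h1 := congrArg (fun l : List Bool => l[i.val * n + j.val]?) h
    have hn : 0 < n := by have := i.isLt; omega
    have e1 : (i.val * n + j.val) / n = i.val := by
      rw [Nat.mul_comm, Nat.mul_add_div hn, Nat.div_eq_of_lt j.isLt, Nat.add_zero]
    have e2 : (i.val * n + j.val) % n = j.val := by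
      rw [Nat.mul_comm, Nat.mul_add_mod, Nat.mod_eq_of_lt j.isLt]
    simp only [adjBits, List.getElem?_map, List.getElem?_range hlt, Option.map_some,
      Option.some.injEq, e1, e2, decide_eq_decide] at h1
    constructor
    · intro h2
      exact (h1.1 ⟨i.isLt, j.isLt, h2⟩).2.2
    · intro h2
      exact (h1.2 ⟨i.isLt, j.isLt, h2⟩).2.2
  rw [this]
  exact hG

open Classical in
/-- **NP-hardness of 2-WC**, with instances that are `S`-weight colourable for all two-element sets
`S` not containing `0`. -/
theorem hardness [Fintype Γ] (L : Set (List Γ)) (hL : InNP L) :
    ∃ f : List Γ → List Bool, PolyTime f ∧ ∀ x, (x ∈ L ↔ f x ∈ TwoWC) ∧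
      ∃ (n : ℕ) (G : SimpleGraph (Fin n)), f x = adjBits G ∧
        ∀ S : Set ℝ, S.ncard = 2 → (0 : ℝ) ∉ S → SColourable G S := by
  obtain ⟨n, lit, hn, hlit, hL'⟩ := cook_levin L hL
  set I : List Γ → Inst := inst n lit with hI
  have hU : ∀ x, 0 < (I x).U := fun x => by
    change 0 < 1 + _
    omega
  have ulit : ∀ {f g : List Γ → (ℕ → ℕ) → ℕ}, UF f → UF g →
      UF (fun x e => lit x (f x e) (g x e)) := fun hf hg => UF.comp₂ hlit hf hg
  have uU : UF (fun x _ => (I x).U) := by
    change UF (fun x _ => 1 + ∑ c ∈ range (n x), ∑ j ∈ range 3, lit x c j)
    refine (UF.const 1).add (UF.sum hn (UF.fsum _ fun j _ => ?_))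
    exact ulit (UF.var 0) (UF.const j)
  have uC : UF (fun x _ => (I x).C) := hn
  have um : UF (fun x _ => (I x).m) := (UF.const 3).mul hn
  have uatm : ∀ {f : List Γ → (ℕ → ℕ) → ℕ}, UF f → UF (fun x e => (I x).atm (f x e)) := by
    intro f hf
    change UF (fun x e => lit x (f x e / 3) (f x e % 3) / 2)
    repeat' first
      | with_reducible assumption | with_reducible exact UF.var _
      | with_reducible exact UF.const _ | with_reducible exact UF.len | with_reducible apply ulit
      | with_reducible apply UF.add | with_reducible apply UF.sub | with_reducible apply UF.mul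
      | with_reducible apply UF.div | with_reducible apply UF.mod | with_reducible apply UF.iteC
      | with_reducible apply UF.ite | with_reducible apply UF.min | with_reducible apply UF.max
      | with_reducible apply UF.sum | with_reducible apply UP.and | with_reducible apply UP.or
      | with_reducible apply UP.not | with_reducible apply UP.eq | with_reducible apply UP.ne
      | with_reducible apply UP.lt | with_reducible apply UP.le | with_reducible apply UP.bex
      | with_reducible apply UP.ball | with_reducible apply UP.imp | with_reducible apply UP.iff
      | with_reducible apply UP.sym | with_reducible apply UF.poly | with_reducible apply UF.pow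
      | with_reducible exact UP.const _
  have usg : ∀ {f : List Γ → (ℕ → ℕ) → ℕ}, UF f → UF (fun x e => (I x).sg (f x e)) := by
    intro f hf
    change UF (fun x e => lit x (f x e / 3) (f x e % 3) % 2)
    repeat' first
      | with_reducible assumption | with_reducible exact UF.var _
      | with_reducible exact UF.const _ | with_reducible exact UF.len | with_reducible apply ulit
      | with_reducible apply UF.add | with_reducible apply UF.sub | with_reducible apply UF.mul
      | with_reducible apply UF.div | with_reducible apply UF.mod | with_reducible apply UF.iteC
      | with_reducible apply UF.ite | with_reducible apply UF.min | with_reducible apply UF.max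
      | with_reducible apply UF.sum | with_reducible apply UP.and | with_reducible apply UP.or
      | with_reducible apply UP.not | with_reducible apply UP.eq | with_reducible apply UP.ne
      | with_reducible apply UP.lt | with_reducible apply UP.le | with_reducible apply UP.bex
      | with_reducible apply UP.ball | with_reducible apply UP.imp | with_reducible apply UP.iff
      | with_reducible apply UP.sym | with_reducible apply UF.poly | with_reducible apply UF.pow
      | with_reducible exact UP.const _
  have uN : UF (fun x _ => (I x).NN) := by
    change UF (fun x _ => 432 * ((I x).U * (I x).m))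
    exact (UF.const 432).mul (uU.mul um)
  have uPN : ∀ {f g h k : List Γ → (ℕ → ℕ) → ℕ}, UF f → UF g → UF h → UF k →
      UP (fun x e => Inst.PN (f x e) (g x e) (h x e) (k x e)) := by
    intro f g h k hf hg hh hk
    unfold Inst.PN
    have hf' := UF.ren (fun i => i + 1) hf
    have hg' := UF.ren (fun i => i + 1) hg
    have hh' := UF.ren (fun i => i + 1) hh
    repeat' first
      | with_reducible assumption | with_reducible exact UF.var _
      | with_reducible exact UF.const _ | with_reducible exact UF.len
      | with_reducible apply UF.add | with_reducible apply UF.sub | with_reducible apply UF.mul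
      | with_reducible apply UF.div | with_reducible apply UF.mod | with_reducible apply UF.iteC
      | with_reducible apply UF.ite | with_reducible apply UF.min | with_reducible apply UF.max
      | with_reducible apply UF.sum | with_reducible apply UP.and | with_reducible apply UP.or
      | with_reducible apply UP.not | with_reducible apply UP.eq | with_reducible apply UP.ne
      | with_reducible apply UP.lt | with_reducible apply UP.le | with_reducible apply UP.bex
      | with_reducible apply UP.ball | with_reducible apply UP.imp | with_reducible apply UP.iff
      | with_reducible apply UP.sym | with_reducible apply UF.poly | with_reducible apply UF.pow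
      | with_reducible exact UP.const _
  have uEN : UP (fun x e => Inst.EN (I x).U (I x).m (I x).C (I x).atm (I x).sg (e 0) (e 1)) := by
    unfold Inst.EN
    repeat' first
      | with_reducible assumption | with_reducible exact UF.var _
      | with_reducible exact UF.const _ | with_reducible exact UF.len | with_reducible apply uPN
      | with_reducible apply uatm | with_reducible apply usg | with_reducible apply uU
      | with_reducible apply uC | with_reducible apply um | with_reducible apply UF.add
      | with_reducible apply UF.sub | with_reducible apply UF.mul | with_reducible apply UF.div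
      | with_reducible apply UF.mod | with_reducible apply UF.iteC | with_reducible apply UF.ite
      | with_reducible apply UF.min | with_reducible apply UF.max | with_reducible apply UF.sum
      | with_reducible apply UP.and | with_reducible apply UP.or | with_reducible apply UP.not
      | with_reducible apply UP.eq | with_reducible apply UP.ne | with_reducible apply UP.lt
      | with_reducible apply UP.le | with_reducible apply UP.bex | with_reducible apply UP.ball
      | with_reducible apply UP.imp | with_reducible apply UP.iff | with_reducible apply UP.sym
      | with_reducible apply UF.poly | with_reducible apply UF.pow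
      | with_reducible exact UP.const _
  have uEN₂ : ∀ {f g : List Γ → (ℕ → ℕ) → ℕ}, UF f → UF g →
      UP (fun x e => Inst.EN (I x).U (I x).m (I x).C (I x).atm (I x).sg (f x e) (g x e)) :=
    fun hf hg => UP.comp₂ (P := fun x a b =>
      Inst.EN (I x).U (I x).m (I x).C (I x).atm (I x).sg a b) uEN hf hg
  set f : List Γ → List Bool := fun x => (List.range ((I x).NN * (I x).NN)).map
    (fun i => decide (Inst.EN (I x).U (I x).m (I x).C (I x).atm (I x).sg
      (i / (I x).NN) (i % (I x).NN) ∨
      Inst.EN (I x).U (I x).m (I x).C (I x).atm (I x).sg (i % (I x).NN) (i / (I x).NN))) with hf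
  have hfx : ∀ x, f x = adjBits (I x).graph := by
    intro x
    simp only [hf, adjBits]
    refine List.map_congr_left fun i hi => ?_
    rw [List.mem_range] at hi
    have hN : 0 < (I x).NN := by
      rcases Nat.eq_zero_or_pos (I x).NN with h | h
      · rw [h] at hi; simp at hi
      · exact h
    have h1 : i / (I x).NN < (I x).NN := Nat.div_lt_of_lt_mul hi
    have h2 : i % (I x).NN < (I x).NN := Nat.mod_lt _ hN
    rw [decide_eq_decide]
    constructor
    · intro h
      exact ⟨h1, h2, ((I x).graph_adj _ _).2 h⟩
    · rintro ⟨_, _, h⟩
      exact ((I x).graph_adj _ _).1 h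
  refine ⟨f, ?_, fun x => ⟨?_, (I x).NN, (I x).graph, hfx x, fun S hS h0 =>
    (I x).graph_nonzero (hU x) S hS h0⟩⟩
  · refine polyTime_bits (M := fun x => (I x).NN * (I x).NN) (P := fun x i =>
      Inst.EN (I x).U (I x).m (I x).C (I x).atm (I x).sg (i / (I x).NN) (i % (I x).NN) ∨
      Inst.EN (I x).U (I x).m (I x).C (I x).atm (I x).sg (i % (I x).NN) (i / (I x).NN))
      (uN.mul uN) ?_ f _ (fun x i => decide_eq_true_iff) (fun x => rfl)
    exact (uEN₂ ((UF.var 0).div uN) ((UF.var 0).mod uN)).or
        (uEN₂ ((UF.var 0).mod uN) ((UF.var 0).div uN))
  · rw [hL' x]
    have h1 := (I x).graph_kwc (hU x)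
    constructor
    · intro h
      exact ⟨(I x).NN, (I x).graph, hfx x, h1.2 h⟩
    · rintro ⟨n', G', h2, h3⟩
      refine h1.1 (adjBits_inj (G' := G') ?_ h3)
      rw [← hfx x, h2]

end Pool.Agent.WC2
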