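import Mathlib
import Pool.Agent.PT.Bits
import Pool.Agent.WC2.Defs

/-!
# 2-WC is in NP
-/

set_option autoImplicit false

namespace Pool.Agent.WC2

open Finset

section graph

variable {n : ℕ} (G : SimpleGraph (Fin n))

open Classical in
/-- Degree. -/
noncomputable def dg (u : Fin n) : ℕ := ∑ v, if G.Adj u v then 1 else 0

open Classical in
/-- Number of incident edges in `W`. -/
noncomputable def xg (W : Sym2 (Fin n) → Prop) (u : Fin n) : ℕ :=
  ∑ v, if G.Adj u v ∧ W s(u, v) then 1 else 0

theorem dg_le (u : Fin n) : dg G u ≤ n := by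
  classical
  unfold dg
  rw [sum_boole]
  exact (card_le_univ _).trans (by simp)

theorem xg_le (W : Sym2 (Fin n) → Prop) (u : Fin n) : xg G W u ≤ n := by
  classical
  unfold xg
  rw [sum_boole]
  exact (card_le_univ _).trans (by simp)

theorem vsum_eq (W : Sym2 (Fin n) → Prop) (a b : ℝ) (w : Sym2 (Fin n) → ℝ)
    (hw : ∀ e ∈ G.edgeSet, w e = open Classical in if W e then b else a) (u : Fin n) :
    vsum G w u = a * dg G u + (b - a) * xg G W u := by
  classical
  unfold vsum dg xg
  have h1 : ∑ v ∈ G.neighborFinset u, w s(u, v) = ∑ v, if G.Adj u v then w s(u, v) else 0 := by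
    rw [← sum_filter]
    congr 1
    ext v
    simp
  rw [h1]
  push_cast
  rw [mul_sum, mul_sum, ← sum_add_distrib]
  refine sum_congr rfl fun v _ => ?_
  by_cases hA : G.Adj u v
  · have h2 := hw s(u, v) (by rwa [SimpleGraph.mem_edgeSet])
    rw [if_pos hA, if_pos hA, h2]
    by_cases hW : W s(u, v)
    · rw [if_pos hW, if_pos ⟨hA, hW⟩]; ring
    · rw [if_neg hW, if_neg (fun h => hW h.2)]; ring
  · rw [if_neg hA, if_neg hA, if_neg (fun h => hA h.1)]; ring

/-- Finitely many tests suffice. -/
theorem kwc_iff : KWC 2 G ↔ ∀ κ m, κ < 2 * n + 3 → 1 ≤ m → m ≤ n →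
    ∃ W : Sym2 (Fin n) → Prop, ∀ u v, G.Adj u v →
      κ * dg G u + (n + 1) * dg G v + m * xg G W u ≠
        κ * dg G v + (n + 1) * dg G u + m * xg G W v := by
  classical
  constructor
  · intro h κ m hκ hm hmn
    set r : ℝ := ((κ : ℝ) - (n + 1)) / m with hr
    have hm0 : (m : ℝ) ≠ 0 := by
      have : m ≠ 0 := by omega
      exact_mod_cast this
    obtain ⟨w, hwS, hne⟩ := h {r, r + 1} (Set.ncard_pair (by simp))
    refine ⟨fun e => w e = r + 1, fun u v huv heq => hne u v huv ?_⟩
    have hw : ∀ e ∈ G.edgeSet, w e = if w e = r + 1 then r + 1 else r := by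
      intro e he
      rcases hwS e he with h1 | h1
      · have : w e = r := h1
        split_ifs with h2
        · exact h2
        · exact this
      · have : w e = r + 1 := h1
        rw [if_pos this, this]
    rw [vsum_eq G (fun e => w e = r + 1) r (r + 1) w hw,
      vsum_eq G (fun e => w e = r + 1) r (r + 1) w hw]
    set X := xg G (fun e => w e = r + 1)
    have h3 : ((κ * dg G u + (n + 1) * dg G v + m * X u : ℕ) : ℝ) =
        ((κ * dg G v + (n + 1) * dg G u + m * X v : ℕ) : ℝ) := by rw [heq]
    push_cast at h3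
    have h4 : r * m = (κ : ℝ) - (n + 1) := by rw [hr]; field_simp
    have h5 : m * (r * dg G u + (r + 1 - r) * X u - (r * dg G v + (r + 1 - r) * X v)) = 0 := by
      have : m * (r * dg G u + (r + 1 - r) * X u - (r * dg G v + (r + 1 - r) * X v)) =
        (r * m) * (dg G u - dg G v) + m * (X u - X v) := by ring
      rw [this, h4]
      linarith
    rcases mul_eq_zero.1 h5 with h6 | h6
    · exact absurd h6 hm0
    · linarith
  · intro h S hS
    obtain ⟨a, b, hab, rfl⟩ := Set.ncard_eq_two.1 hS
    have hba : b - a ≠ 0 := sub_ne_zero.2 (Ne.symm hab)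
    -- the trivial case of no edges
    by_cases hn : n = 0
    · subst hn
      exact ⟨fun _ => a, fun e _ => by simp, fun u => u.elim0⟩
    set r : ℝ := a / (b - a) with hr
    have hra : r * (b - a) = a := by rw [hr]; field_simp
    have key : ∀ (W : Sym2 (Fin n) → Prop),
        (∀ u v, G.Adj u v → r * dg G u + xg G W u ≠ r * dg G v + xg G W v) →
        SColourable G {a, b} := by
      intro W hW
      set w : Sym2 (Fin n) → ℝ := fun e => if W e then b else a with hw
      refine ⟨w, fun e _ => ?_, fun u v huv heq => hW u v huv ?_⟩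
      · simp only [hw]
        split_ifs <;> simp
      · rw [vsum_eq G W a b w (fun e _ => rfl), vsum_eq G W a b w (fun e _ => rfl)] at heq
        have h1 : (b - a) * (r * dg G u + xg G W u - (r * dg G v + xg G W v)) = 0 := by
          have : (b - a) * (r * dg G u + xg G W u - (r * dg G v + xg G W v)) =
            (r * (b - a)) * (dg G u - dg G v) + (b - a) * (xg G W u - xg G W v) := by ring
          rw [this, hra]
          linarith
        rcases mul_eq_zero.1 h1 with h6 | h6
        · exact absurd h6 hba
        · linarith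
    by_cases hrat : ∃ (p : ℤ) (q : ℕ), |p| ≤ n ∧ 1 ≤ q ∧ q ≤ n ∧ r * q = p
    · obtain ⟨p, q, hp, hq, hqn, hrq⟩ := hrat
      rw [abs_le] at hp
      obtain ⟨W, hW⟩ := h (p + (n + 1)).toNat q (by omega) hq hqn
      refine key W fun u v huv heq => hW u v huv ?_
      have hcast : (((p + (n + 1)).toNat : ℕ) : ℝ) = (p : ℝ) + (n + 1) := by
        have h1 : (((p + (n + 1)).toNat : ℕ) : ℤ) = p + (n + 1) := Int.toNat_of_nonneg (by omega)
        exact_mod_cast congrArg (fun z : ℤ => (z : ℝ)) h1
      have h2 : (((p + (n + 1)).toNat * dg G u + (n + 1) * dg G v + q * xg G W u : ℕ) : ℝ) =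
          (((p + (n + 1)).toNat * dg G v + (n + 1) * dg G u + q * xg G W v : ℕ) : ℝ) := by
        push_cast
        rw [hcast, ← hrq]
        have : (q : ℝ) * (r * dg G u + xg G W u) = q * (r * dg G v + xg G W v) := by rw [heq]
        linarith
      exact_mod_cast h2
    · obtain ⟨W, hW⟩ := h (2 * n + 2) 1 (by omega) le_rfl (by omega)
      refine key W fun u v huv heq => ?_
      by_cases hd : dg G u = dg G v
      · apply hW u v huv
        have h1 : (xg G W u : ℝ) = xg G W v := by rw [hd] at heq; linarith
        have h2 : xg G W u = xg G W v := by exact_mod_cast h1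
        rw [hd, h2]
      · apply hrat
        have hdu := dg_le G u
        have hdv := dg_le G v
        have hxu := xg_le G W u
        have hxv := xg_le G W v
        rcases lt_or_gt_of_ne hd with hlt | hlt
        · refine ⟨(xg G W u : ℤ) - xg G W v, dg G v - dg G u, ?_, by omega, by omega, ?_⟩
          · rw [abs_le]; omega
          · rw [Nat.cast_sub hlt.le]
            push_cast
            linarith
        · refine ⟨(xg G W v : ℤ) - xg G W u, dg G u - dg G v, ?_, by omega, by omega, ?_⟩
          · rw [abs_le]; omega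
          · rw [Nat.cast_sub (le_of_lt hlt)]
            push_cast
            linarith

end graph

end Pool.Agent.WC2
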