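import Mathlib
import Pool.Agent.PT.Bits
import Pool.Agent.WC2.Member
import Pool.Agent.WC2.Hard

/-!
# 2-WC is in NP: the verifier
-/

set_option autoImplicit false
set_option linter.unreachableTactic false
set_option linter.unusedTactic false

namespace Pool.Agent.WC2

open Finset Computability
open Pool.Agent.PT

open Classical in
/-- Degree, from the bits. -/
noncomputable def Dg (n : ℕ) (A : ℕ → ℕ → Prop) (u : ℕ) : ℕ :=
  ∑ v ∈ range n, if A u v then 1 else 0

open Classical in
/-- Number of edges at `u` chosen by the certificate for the test `(κ, m)`. -/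
noncomputable def Xg (n : ℕ) (A : ℕ → ℕ → Prop) (B : ℕ → Prop) (κ m u : ℕ) : ℕ :=
  ∑ v ∈ range n, if A u v ∧ B (((κ * (n + 1) + m) * n + min u v) * n + max u v) then 1 else 0

/-- What the verifier checks. -/
def Ver (L n : ℕ) (A : ℕ → ℕ → Prop) (B : ℕ → Prop) : Prop :=
  n * n = L ∧ (∀ i, i < n → ¬ A i i) ∧ (∀ i, i < n → ∀ j, j < n → A i j → A j i) ∧
  ∀ κ, κ < 2 * n + 3 → ∀ m, m < n + 1 → 1 ≤ m → ∀ u, u < n → ∀ v, v < n → A u v →
    κ * Dg n A u + (n + 1) * Dg n A v + m * Xg n A B κ m u ≠
      κ * Dg n A v + (n + 1) * Dg n A u + m * Xg n A B κ m v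

/-- The letter `i * n + j` is one. -/
def bitA (n : ℕ) (y : List Bool) (i j : ℕ) : Prop := y[i * n + j]? = some true

/-- The graph of a matrix. -/
def bitG (n : ℕ) (A : ℕ → ℕ → Prop) (h1 : ∀ i, i < n → ¬ A i i)
    (h2 : ∀ i, i < n → ∀ j, j < n → A i j → A j i) : SimpleGraph (Fin n) where
  Adj i j := A i j
  symm := ⟨fun i j h => h2 i i.isLt j j.isLt h⟩
  loopless := ⟨fun i h => h1 i i.isLt h⟩

theorem bitA_adjBits {n : ℕ} (G : SimpleGraph (Fin n)) (i j : ℕ) (hi : i < n) (hj : j < n) :
    bitA n (adjBits G) i j ↔ G.Adj ⟨i, hi⟩ ⟨j, hj⟩ := by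
  classical
  have hlt : i * n + j < n * n := by
    have : (i + 1) * n ≤ n * n := Nat.mul_le_mul_right _ hi
    have e : (i + 1) * n = i * n + n := by ring
    omega
  have hn : 0 < n := by omega
  have e1 : (i * n + j) / n = i := by
    rw [Nat.mul_comm, Nat.mul_add_div hn, Nat.div_eq_of_lt hj, Nat.add_zero]
  have e2 : (i * n + j) % n = j := by
    rw [Nat.mul_comm, Nat.mul_add_mod, Nat.mod_eq_of_lt hj]
  unfold bitA adjBits
  rw [List.getElem?_map, List.getElem?_range hlt]
  simp only [Option.map_some, Option.some.injEq, decide_eq_true_eq, e1, e2]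
  constructor
  · rintro ⟨_, _, h⟩; exact h
  · intro h; exact ⟨hi, hj, h⟩

theorem adjBits_bitG {n : ℕ} (y : List Bool) (hy : n * n = y.length)
    (h1 : ∀ i, i < n → ¬ bitA n y i i)
    (h2 : ∀ i, i < n → ∀ j, j < n → bitA n y i j → bitA n y j i) :
    y = adjBits (bitG n (bitA n y) h1 h2) := by
  classical
  apply List.ext_getElem?
  intro k
  by_cases hk : k < n * n
  · have hn : 0 < n := by
      rcases Nat.eq_zero_or_pos n with h | h
      · rw [h] at hk; simp at hk
      · exact h
    have hk1 : k / n < n := Nat.div_lt_of_lt_mul hk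
    have hk2 : k % n < n := Nat.mod_lt _ hn
    have e : k / n * n + k % n = k := by
      rw [Nat.mul_comm]; exact Nat.div_add_mod k n
    have hA := bitA_adjBits (bitG n (bitA n y) h1 h2) (k / n) (k % n) hk1 hk2
    change (adjBits (bitG n (bitA n y) h1 h2))[k / n * n + k % n]? = some true ↔ _ at hA
    rw [e] at hA
    have hA2 : (bitG n (bitA n y) h1 h2).Adj ⟨k / n, hk1⟩ ⟨k % n, hk2⟩ ↔ y[k]? = some true := by
      change bitA n y (k / n) (k % n) ↔ _
      unfold bitA
      rw [e]
    have hk3 : k < y.length := by omega
    have hk4 : k < (adjBits (bitG n (bitA n y) h1 h2)).length := by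
      simp [adjBits]; omega
    rw [hA2] at hA
    have g1 : ∃ b, y[k]? = some b := ⟨_, List.getElem?_eq_getElem hk3⟩
    have g2 : ∃ b, (adjBits (bitG n (bitA n y) h1 h2))[k]? = some b :=
      ⟨_, List.getElem?_eq_getElem hk4⟩
    obtain ⟨b, hb⟩ := g1
    obtain ⟨c, hc⟩ := g2
    rw [hb, hc] at hA ⊢
    simp only [Option.some.injEq] at hA ⊢
    cases b <;> cases c <;> simp_all
  · rw [List.getElem?_eq_none (by omega), List.getElem?_eq_none (by simp [adjBits]; omega)]

open Classical in
theorem Dg_eq {n : ℕ} (G : SimpleGraph (Fin n)) (A : ℕ → ℕ → Prop)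
    (hA : ∀ (i j : ℕ) (hi : i < n) (hj : j < n), A i j ↔ G.Adj ⟨i, hi⟩ ⟨j, hj⟩) (u : Fin n) :
    Dg n A u = dg G u := by
  unfold Dg dg
  rw [Finset.sum_range]
  refine sum_congr rfl fun v _ => ?_
  have := hA u v u.isLt v.isLt
  by_cases h : A u v
  · rw [if_pos h, if_pos (this.1 h)]
  · rw [if_neg h, if_neg (fun h' => h (this.2 h'))]

open Classical in
theorem Xg_eq {n : ℕ} (G : SimpleGraph (Fin n)) (A : ℕ → ℕ → Prop)
    (hA : ∀ (i j : ℕ) (hi : i < n) (hj : j < n), A i j ↔ G.Adj ⟨i, hi⟩ ⟨j, hj⟩)
    (B : ℕ → Prop) (W : Sym2 (Fin n) → Prop) (κ m : ℕ)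
    (hW : ∀ u v : Fin n, W s(u, v) ↔ B (((κ * (n + 1) + m) * n + min u.val v.val) * n +
      max u.val v.val)) (u : Fin n) :
    Xg n A B κ m u = xg G W u := by
  unfold Xg xg
  rw [Finset.sum_range]
  refine sum_congr rfl fun v _ => ?_
  have h1 := hA u v u.isLt v.isLt
  have h2 := hW u v
  by_cases h : A u v ∧ B (((κ * (n + 1) + m) * n + min u.val v.val) * n + max u.val v.val)
  · rw [if_pos h, if_pos ⟨h1.1 h.1, h2.2 h.2⟩]
  · rw [if_neg h, if_neg (fun h' => h ⟨h1.2 h'.1, h2.1 h'.2⟩)]

/-- Length of certificates. -/
noncomputable def certPoly : Polynomial ℕ :=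
  (2 * Polynomial.X + 3) * (Polynomial.X + 1) * Polynomial.X * Polynomial.X

/-- Completeness and soundness of the verifier. -/
theorem mem_TwoWC_iff (y : List Bool) : y ∈ TwoWC ↔ ∃ w : List Bool,
    w.length ≤ certPoly.eval y.length ∧
      ∃ n, Ver y.length n (bitA n y) (fun k => w[k]? = some true) := by
  classical
  constructor
  · rintro ⟨n, G, rfl, hG⟩
    rw [kwc_iff] at hG
    have hlen : (adjBits G).length = n * n := by simp [adjBits]
    choose! W hW using hG
    set M := (2 * n + 3) * (n + 1) * n * n with hM
    set w : List Bool := (List.range M).map (fun k =>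
      decide (∃ (h1 : k / n % n < n) (h2 : k % n < n),
        W (k / n / n / (n + 1)) (k / n / n % (n + 1)) s(⟨k / n % n, h1⟩, ⟨k % n, h2⟩))) with hw
    have hwb : ∀ κ m, κ < 2 * n + 3 → m < n + 1 → ∀ (a b : ℕ) (ha : a < n) (hb : b < n),
        (w[((κ * (n + 1) + m) * n + a) * n + b]? = some true ↔ W κ m s(⟨a, ha⟩, ⟨b, hb⟩)) := by
      intro κ m hκ hm a b ha hb
      have hn : 0 < n := by omega
      have l1 : κ * (n + 1) + m < (2 * n + 3) * (n + 1) := Inst.pair_lt hκ hm
      have l2 : (κ * (n + 1) + m) * n + a < (2 * n + 3) * (n + 1) * n := Inst.pair_lt l1 ha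
      have l3 : ((κ * (n + 1) + m) * n + a) * n + b < M := Inst.pair_lt l2 hb
      have d1 : (((κ * (n + 1) + m) * n + a) * n + b) / n = (κ * (n + 1) + m) * n + a := by
        rw [Nat.mul_comm _ n, Nat.mul_add_div hn, Nat.div_eq_of_lt hb, Nat.add_zero]
      have d2 : (((κ * (n + 1) + m) * n + a) * n + b) % n = b := by
        rw [Nat.mul_comm _ n, Nat.mul_add_mod, Nat.mod_eq_of_lt hb]
      have d3 : ((κ * (n + 1) + m) * n + a) / n = κ * (n + 1) + m := by
        rw [Nat.mul_comm _ n, Nat.mul_add_div hn, Nat.div_eq_of_lt ha, Nat.add_zero]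
      have d4 : ((κ * (n + 1) + m) * n + a) % n = a := by
        rw [Nat.mul_comm _ n, Nat.mul_add_mod, Nat.mod_eq_of_lt ha]
      have d5 : (κ * (n + 1) + m) / (n + 1) = κ := by
        rw [Nat.mul_comm, Nat.mul_add_div (by omega), Nat.div_eq_of_lt hm, Nat.add_zero]
      have d6 : (κ * (n + 1) + m) % (n + 1) = m := by
        rw [Nat.mul_comm, Nat.mul_add_mod, Nat.mod_eq_of_lt hm]
      rw [hw, List.getElem?_map, List.getElem?_range l3]
      simp only [Option.map_some, Option.some.injEq, decide_eq_true_eq, d1, d2, d3, d4, d5, d6]
      constructor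
      · rintro ⟨_, _, h⟩; exact h
      · intro h; exact ⟨ha, hb, h⟩
    refine ⟨w, ?_, n, ?_⟩
    · rw [hlen]
      have hn : n ≤ n * n := by
        rcases Nat.eq_zero_or_pos n with h | h
        · simp [h]
        · exact Nat.le_mul_of_pos_left _ h
      simp only [hw, List.length_map, List.length_range, hM, certPoly, Polynomial.eval_mul,
        Polynomial.eval_add, Polynomial.eval_X, Polynomial.eval_ofNat, Polynomial.eval_one]
      exact Nat.mul_le_mul (Nat.mul_le_mul (Nat.mul_le_mul (by omega) (by omega)) hn) hn
    · have hA : ∀ (i j : ℕ) (hi : i < n) (hj : j < n),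
          bitA n (adjBits G) i j ↔ G.Adj ⟨i, hi⟩ ⟨j, hj⟩ := fun i j hi hj =>
        bitA_adjBits G i j hi hj
      refine ⟨hlen.symm, fun i hi h => ?_, fun i hi j hj h => ?_, ?_⟩
      · exact G.loopless.irrefl _ ((hA i i hi hi).1 h)
      · exact (hA j i hj hi).2 ((hA i j hi hj).1 h).symm
      · intro κ hκ m hm hm1 u hu v hv huv
        have h1 := hW κ m hκ hm1 (by omega) ⟨u, hu⟩ ⟨v, hv⟩ ((hA u v hu hv).1 huv)
        have e1 := Dg_eq G _ hA ⟨u, hu⟩
        have e2 := Dg_eq G _ hA ⟨v, hv⟩
        have hWB : ∀ a b : Fin n, W κ m s(a, b) ↔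
            w[((κ * (n + 1) + m) * n + min a.val b.val) * n + max a.val b.val]? = some true := by
          intro a b
          rcases le_total a.val b.val with hab | hab
          · rw [min_eq_left hab, max_eq_right hab, hwb κ m hκ hm a.val b.val a.isLt b.isLt]
          · rw [min_eq_right hab, max_eq_left hab, hwb κ m hκ hm b.val a.val b.isLt a.isLt,
              Sym2.eq_swap]
        have e3 := Xg_eq G _ hA (fun k => w[k]? = some true) (W κ m) κ m hWB ⟨u, hu⟩
        have e4 := Xg_eq G _ hA (fun k => w[k]? = some true) (W κ m) κ m hWB ⟨v, hv⟩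
        simp only at e1 e2 e3 e4
        rw [e1, e2, e3, e4]
        exact h1
  · rintro ⟨w, -, n, hlen, h1, h2, h3⟩
    refine ⟨n, bitG n (bitA n y) h1 h2, adjBits_bitG y hlen h1 h2, ?_⟩
    rw [kwc_iff]
    intro κ m hκ hm hmn
    set G := bitG n (bitA n y) h1 h2 with hG
    have hA : ∀ (i j : ℕ) (hi : i < n) (hj : j < n),
          bitA n y i j ↔ G.Adj ⟨i, hi⟩ ⟨j, hj⟩ := fun i j hi hj => Iff.rfl
    set W : Sym2 (Fin n) → Prop := Sym2.lift ⟨fun a b =>
      w[((κ * (n + 1) + m) * n + min a.val b.val) * n + max a.val b.val]? = some true,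
      fun a b => by dsimp only; rw [min_comm, max_comm]⟩ with hW
    have hWB : ∀ a b : Fin n, W s(a, b) ↔
        w[((κ * (n + 1) + m) * n + min a.val b.val) * n + max a.val b.val]? = some true :=
      fun a b => Iff.rfl
    refine ⟨W, fun u v huv => ?_⟩
    have h4 := h3 κ hκ m (by omega) hm u.val u.isLt v.val v.isLt huv
    rwa [Dg_eq G _ hA u, Dg_eq G _ hA v, Xg_eq G _ hA (fun k => w[k]? = some true) W κ m hWB u,
      Xg_eq G _ hA (fun k => w[k]? = some true) W κ m hWB v] at h4

/-! ### The verifier is polynomial time computable -/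

open Classical in
/-- Number of letters of the first component. -/
noncomputable def LL (z : List (Bool ⊕ Bool)) : ℕ :=
  ∑ i ∈ range z.length, if z[i]? = some (Sum.inl true) ∨ z[i]? = some (Sum.inl false) then 1 else 0

open Classical in
/-- Integer square root of `LL`. -/
noncomputable def nn (z : List (Bool ⊕ Bool)) : ℕ :=
  ∑ j ∈ range (LL z), if (j + 1) * (j + 1) ≤ LL z then 1 else 0

/-- The verifier on coded pairs. -/
def VerZ (z : List (Bool ⊕ Bool)) : Prop :=
  Ver (LL z) (nn z) (fun i j => z[i * nn z + j]? = some (Sum.inl true))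
    (fun k => z[LL z + k]? = some (Sum.inr true))

theorem uLL : UF (fun z _ => LL z) := by
  unfold LL
  repeat' first
    | with_reducible assumption | with_reducible exact UF.var _ | with_reducible exact UF.const _
    | with_reducible exact UF.len | with_reducible apply UF.add | with_reducible apply UF.sub
    | with_reducible apply UF.mul | with_reducible apply UF.div | with_reducible apply UF.mod
    | with_reducible apply UF.iteC | with_reducible apply UF.ite | with_reducible apply UF.min
    | with_reducible apply UF.max | with_reducible apply UF.sum | with_reducible apply UP.and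
    | with_reducible apply UP.or | with_reducible apply UP.not | with_reducible apply UP.eq
    | with_reducible apply UP.ne | with_reducible apply UP.lt | with_reducible apply UP.le
    | with_reducible apply UP.bex | with_reducible apply UP.ball | with_reducible apply UP.imp
    | with_reducible apply UP.iff | with_reducible apply UP.sym | with_reducible apply UF.poly
    | with_reducible apply UF.pow | with_reducible exact UP.const _

theorem unn : UF (fun z _ => nn z) := by
  unfold nn
  repeat' first
    | with_reducible assumption | with_reducible exact UF.var _ | with_reducible exact UF.const _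
    | with_reducible exact UF.len | with_reducible apply uLL | with_reducible apply UF.add
    | with_reducible apply UF.sub | with_reducible apply UF.mul | with_reducible apply UF.div
    | with_reducible apply UF.mod | with_reducible apply UF.iteC | with_reducible apply UF.ite
    | with_reducible apply UF.min | with_reducible apply UF.max | with_reducible apply UF.sum
    | with_reducible apply UP.and | with_reducible apply UP.or | with_reducible apply UP.not
    | with_reducible apply UP.eq | with_reducible apply UP.ne | with_reducible apply UP.lt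
    | with_reducible apply UP.le | with_reducible apply UP.bex | with_reducible apply UP.ball
    | with_reducible apply UP.imp | with_reducible apply UP.iff | with_reducible apply UP.sym
    | with_reducible apply UF.poly | with_reducible apply UF.pow
    | with_reducible exact UP.const _

theorem upVerZ : UP (fun z _ => VerZ z) := by
  have hDg : ∀ {f : List (Bool ⊕ Bool) → (ℕ → ℕ) → ℕ}, UF f → UF (fun z e =>
      Dg (nn z) (fun i j => z[i * nn z + j]? = some (Sum.inl true)) (f z e)) := by
    intro f hf
    have hf' := UF.ren (fun i => i + 1) hf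
    unfold Dg
    repeat' first
      | with_reducible assumption | with_reducible exact UF.var _
      | with_reducible exact UF.const _ | with_reducible exact UF.len | with_reducible apply unn
      | with_reducible apply UF.add | with_reducible apply UF.sub | with_reducible apply UF.mul
      | with_reducible apply UF.div | with_reducible apply UF.mod | with_reducible apply UF.iteC
      | with_reducible apply UF.ite | with_reducible apply UF.min | with_reducible apply UF.max
      | with_reducible apply UF.sum | with_reducible apply UP.and | with_reducible apply UP.or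
      | with_reducible apply UP.not | with_reducible apply UP.eq | with_reducible apply UP.ne
      | with_reducible apply UP.lt | with_reducible apply UP.le | with_reducible apply UP.bex
      | with_reducible apply UP.ball | with_reducible apply UP.imp | with_reducible apply UP.iff
      | with_reducible apply UP.sym | with_reducible apply UF.poly | with_reducible apply UF.pow
      | with_reducible exact UP.const _
  have hXg : ∀ {f g h : List (Bool ⊕ Bool) → (ℕ → ℕ) → ℕ}, UF f → UF g → UF h →
      UF (fun z e => Xg (nn z) (fun i j => z[i * nn z + j]? = some (Sum.inl true))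
        (fun k => z[LL z + k]? = some (Sum.inr true)) (f z e) (g z e) (h z e)) := by
    intro f g h hf hg hh
    have hf' := UF.ren (fun i => i + 1) hf
    have hg' := UF.ren (fun i => i + 1) hg
    have hh' := UF.ren (fun i => i + 1) hh
    unfold Xg
    refine UF.sum unn (UF.ite ?_ (UF.const 1) (UF.const 0))
    repeat' first
      | with_reducible assumption | with_reducible exact UF.var _
      | with_reducible exact UF.const _ | with_reducible exact UF.len | with_reducible apply unn
      | with_reducible apply uLL | with_reducible apply UF.add | with_reducible apply UF.sub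
      | with_reducible apply UF.mul | with_reducible apply UF.div | with_reducible apply UF.mod
      | with_reducible apply UF.iteC | with_reducible apply UF.ite | with_reducible apply UF.min
      | with_reducible apply UF.max | with_reducible apply UF.sum | with_reducible apply UP.and
      | with_reducible apply UP.or | with_reducible apply UP.not | with_reducible apply UP.eq
      | with_reducible apply UP.ne | with_reducible apply UP.lt | with_reducible apply UP.le
      | with_reducible apply UP.bex | with_reducible apply UP.ball | with_reducible apply UP.imp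
      | with_reducible apply UP.iff | with_reducible apply UP.sym | with_reducible apply UF.poly
      | with_reducible apply UF.pow | with_reducible exact UP.const _
  unfold VerZ Ver
  repeat' first
    | with_reducible assumption | with_reducible exact UF.var _ | with_reducible exact UF.const _
    | with_reducible exact UF.len | with_reducible apply unn | with_reducible apply uLL
    | with_reducible apply hDg | with_reducible apply hXg | with_reducible apply UF.add
    | with_reducible apply UF.sub | with_reducible apply UF.mul | with_reducible apply UF.div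
    | with_reducible apply UF.mod | with_reducible apply UF.iteC | with_reducible apply UF.ite
    | with_reducible apply UF.min | with_reducible apply UF.max | with_reducible apply UF.sum
    | with_reducible apply UP.and | with_reducible apply UP.or | with_reducible apply UP.not
    | with_reducible apply UP.eq | with_reducible apply UP.ne | with_reducible apply UP.lt
    | with_reducible apply UP.le | with_reducible apply UP.bex | with_reducible apply UP.ball
    | with_reducible apply UP.imp | with_reducible apply UP.iff | with_reducible apply UP.sym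
    | with_reducible apply UF.poly | with_reducible apply UF.pow
    | with_reducible exact UP.const _

theorem get_inl (y w : List Bool) (b : Bool) (k : ℕ) :
    (y.map Sum.inl ++ w.map Sum.inr : List (Bool ⊕ Bool))[k]? = some (Sum.inl b) ↔
      y[k]? = some b := by
  by_cases hk : k < y.length
  · rw [List.getElem?_append_left (by simpa using hk), List.getElem?_map]
    rw [List.getElem?_eq_getElem hk]
    simp
  · rw [List.getElem?_append_right (by simpa using hk), List.getElem?_map,
      List.getElem?_eq_none (not_lt.1 hk)]
    simp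

theorem get_inr (y w : List Bool) (b : Bool) (k : ℕ) :
    (y.map Sum.inl ++ w.map Sum.inr : List (Bool ⊕ Bool))[y.length + k]? = some (Sum.inr b) ↔
      w[k]? = some b := by
  rw [List.getElem?_append_right (by simp), List.getElem?_map]
  simp

theorem LL_pair (y w : List Bool) :
    LL (y.map Sum.inl ++ w.map Sum.inr) = y.length := by
  classical
  unfold LL
  rw [sum_boole]
  have : (range (y.map Sum.inl ++ w.map Sum.inr : List (Bool ⊕ Bool)).length).filter (fun i =>
      (y.map Sum.inl ++ w.map Sum.inr : List (Bool ⊕ Bool))[i]? = some (Sum.inl true) ∨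
      (y.map Sum.inl ++ w.map Sum.inr : List (Bool ⊕ Bool))[i]? = some (Sum.inl false)) =
      range y.length := by
    ext i
    rw [mem_filter, get_inl, get_inl, mem_range, mem_range]
    constructor
    · rintro ⟨-, h | h⟩
      · exact (List.getElem?_eq_some_iff.1 h).1
      · exact (List.getElem?_eq_some_iff.1 h).1
    · intro h
      refine ⟨by simp; omega, ?_⟩
      rw [List.getElem?_eq_getElem h]
      cases y[i] <;> simp
  rw [this]
  simp

theorem nn_pair (y w : List Bool) (n : ℕ) (h : n * n = y.length) :
    nn (y.map Sum.inl ++ w.map Sum.inr) = n := by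
  classical
  unfold nn
  rw [sum_boole, LL_pair]
  have : (range y.length).filter (fun j => (j + 1) * (j + 1) ≤ y.length) = range n := by
    ext j
    rw [mem_filter, mem_range, mem_range, ← h]
    constructor
    · rintro ⟨-, h1⟩
      have := Nat.mul_self_le_mul_self_iff.1 h1
      omega
    · intro h1
      refine ⟨?_, Nat.mul_self_le_mul_self (by omega)⟩
      calc j < n := h1
        _ = 1 * n := (one_mul n).symm
        _ ≤ n * n := Nat.mul_le_mul_right _ (by omega)
  rw [this]
  simp

theorem VerZ_iff (y w : List Bool) : VerZ (y.map Sum.inl ++ w.map Sum.inr) ↔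
    ∃ n, Ver y.length n (bitA n y) (fun k => w[k]? = some true) := by
  have key : ∀ n, n * n = y.length → (VerZ (y.map Sum.inl ++ w.map Sum.inr) ↔
      Ver y.length n (bitA n y) (fun k => w[k]? = some true)) := by
    intro n hn
    unfold VerZ
    rw [LL_pair, nn_pair y w n hn]
    have e1 : (fun i j => (y.map Sum.inl ++ w.map Sum.inr : List (Bool ⊕ Bool))[i * n + j]? =
        some (Sum.inl true)) = bitA n y := by
      funext i j
      exact propext (get_inl y w true _)
    have e2 : (fun k => (y.map Sum.inl ++ w.map Sum.inr : List (Bool ⊕ Bool))[y.length + k]? =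
        some (Sum.inr true)) = fun k => w[k]? = some true := by
      funext k
      exact propext (get_inr y w true _)
    rw [e1, e2]
  constructor
  · intro h
    have h1 : nn (y.map Sum.inl ++ w.map Sum.inr) * nn (y.map Sum.inl ++ w.map Sum.inr) =
        y.length := by
      have := h.1
      rwa [LL_pair] at this
    exact ⟨_, (key _ h1).1 h⟩
  · rintro ⟨n, h⟩
    exact (key n h.1).2 h

open Classical in
/-- **2-WC is in NP.** -/
theorem inNP : InNP TwoWC := by
  refine ⟨certPoly, fun p => decide (VerZ (p.1.map Sum.inl ++ p.2.map Sum.inr)), ?_, fun y => ?_⟩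
  · refine polyTime_bool _ upVerZ _ fun p => ?_
    rw [decide_eq_true_iff]
    rfl
  · rw [mem_TwoWC_iff]
    constructor
    · rintro ⟨w, hw, h⟩
      exact ⟨w, hw, decide_eq_true ((VerZ_iff y w).2 h)⟩
    · rintro ⟨w, hw, h⟩
      exact ⟨w, hw, (VerZ_iff y w).1 (of_decide_eq_true h)⟩

end Pool.Agent.WC2
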